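import Pool.Agent.Lib.MP_d439b2_co.X3.H3T.Spec
import Pool.Agent.Lib.MP_d439b2_co.Rep.RowX3

/-!
# MP_d439b2_co, X3/H3N: there are no large induced matchings for `K3:0,01,12` (helper70, note 2892)

Definitions and the statements of the parts.  `a ~ b` means `G.Adj a b`.

* `S_Dl` (Theorem Delta, 2892 (A)), `S_Za` (Theorem Z-alpha, 2892 (B)), `S_Gm` (Theorem Gamma, 2868 (1)),
  `S_Cl` (cleaning), `S_KB` (no `K_(n,n)`, so bounded layouts), `S_NB` (no other patterns), `S_N` (the final theorem, the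
  hypothesis of `Rep.x3H1`).
-/

set_option autoImplicit false

namespace Pool.Agent.MPd439b2.H3N

open Pool.Agent.MPd439b2 Pool.Agent.MPd439b2.Rep

/-- a typed half graph: `a` is a clique (`s = true`) or stable, `b` is a clique (`t = true`) or stable; `a i ~ b j` iff
`i < j` -/
structure HP {V : Type} (G : SimpleGraph V) (m : ℕ) (s t : Bool) (a b : ℕ → V) : Prop where
  dis : ∀ i < m, ∀ j < m, a i ≠ b j
  ia : ∀ i < m, ∀ j < m, i ≠ j → a i ≠ a j
  ib : ∀ i < m, ∀ j < m, i ≠ j → b i ≠ b j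
  aa : ∀ i < m, ∀ j < m, i ≠ j → (G.Adj (a i) (a j) ↔ s = true)
  bb : ∀ i < m, ∀ j < m, i ≠ j → (G.Adj (b i) (b j) ↔ t = true)
  ab : ∀ i < m, ∀ j < m, (G.Adj (a i) (b j) ↔ i < j)

/-- no typed patterns of size `N`, except for induced matchings (types `(false, false, false)`) and half graphs of two
cliques -/
structure NB {V : Type} (G : SimpleGraph V) (N : ℕ) : Prop where
  tp : ∀ s t e : Bool, ¬ (s = false ∧ t = false ∧ e = false) → NoTP G N s t e
  hf : ∀ s t : Bool, ¬ (s = true ∧ t = true) → ∀ a b, ¬ HP G N s t a b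

/-- the vertices adjacent to all elements of `Q` -/
def PPo {V : Type} (G : SimpleGraph V) (Q : Set V) : Set V := {v | ∀ x ∈ Q, G.Adj v x}

/-- **Theorem Delta** (2892 (A)).

Proof. FACT D (nine vertices, decide): if `v ~ s`, `v ≁ r`, then there is a model of `K3:0,01,12`, or `v` is complete to `u`
and anticomplete to `w`.  Let `K` be the set of the vertices complete to all `u i` and anticomplete to all `w j`, `M` the co-component of
`G[K]` (component of the complement) containing `s`, `r`.  `M` is homogeneous: `v ∈ K \ M` is complete to `M`; `v = u i` and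
`v = w j` are constant on `M`; any other `v` which is not constant on `M`: there are `s', r' ∈ M`, `s' ≁ r'`, `v ~ s'`, `v ≁ r'` (`M` is
co-connected), so `v ∈ K` by D, and `v ∈ K \ M` would be complete.  `M` has two elements and is not everything. -/
def S_Dl : Prop := ∀ (V : Type) [Finite V] (G : SimpleGraph V), H3T.Fr3 G → H3.Prm G →
  ∀ (u : Fin 2 → V) (w : Fin 4 → V) (s r : V), (∀ i j, i ≠ j → G.Adj (u i) (u j)) →
    (∀ i j, i ≠ j → G.Adj (w i) (w j)) → (∀ i j, (G.Adj (u i) (w j) ↔ i.val < j.val)) → s ≠ r →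
    ¬ G.Adj s r → (∀ i, G.Adj s (u i) ∧ G.Adj r (u i)) → (∀ j, ¬ G.Adj s (w j) ∧ ¬ G.Adj r (w j)) →
    False

/-- **Theorem Z-alpha** (2892 (B)): every vertex touches every half graph `D` of two cliques with `4 + 4` vertices.

Proof. See note 2892 (B): facts f1, f2 (decide, all 254 non-constant traces), chains `z_1` (not constant on `D`), `z_i` complete to
`D` and `z_1, .., z_(i-2)`, not adjacent to `z_(i-1)`; there is no `y` adjacent to `z_l` and to nothing else of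
`D, z_1, .., z_l`; the set `K` of `D` and all vertices in chains is homogeneous. -/
def S_Za : Prop := ∀ (V : Type) [Finite V] (G : SimpleGraph V), H3T.Fr3 G → H3.Prm G →
  ∀ (c d : Fin 4 → V), (∀ i j, i ≠ j → G.Adj (c i) (c j)) → (∀ i j, i ≠ j → G.Adj (d i) (d j)) →
    (∀ i j, c i ≠ d j) → (∀ i j, (G.Adj (c i) (d j) ↔ i.val < j.val)) →
    ∀ v, ∃ i, v = c i ∨ v = d i ∨ G.Adj v (c i) ∨ G.Adj v (d i)

/-- **Theorem Gamma** (2868 (1) with the correction of 2892 (C)). -/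
def S_Gm : Prop := ∀ (V : Type) [Finite V] (G : SimpleGraph V), H3T.Fr3 G → H3.Prm G →
  H3.SPo G Set.univ → ∀ (p r q : Fin 4 → V), (∀ i j, ¬ G.Adj (p i) (p j)) →
    (∀ i j, ¬ G.Adj (r i) (r j)) → (∀ i j, (G.Adj (p i) (r j) ↔ i = j)) → Function.Injective q →
    (∀ i j, G.Adj (q i) (p j)) → (∀ i j, ¬ G.Adj (q i) (r j)) →
    ((∀ i j, ¬ G.Adj (q i) (q j)) ∨ ∀ i j, i ≠ j → G.Adj (q i) (q j)) → False

/-- **Cleaning.**  `T` is the length of the excluded chains, `K` the growth factor, `L` a lower bound.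

Proof. `μ 0 = L`, `μ (k + 1) = K * μ k + 1` (or so), `N = μ (T + 1)`.  Suppose that `I_k` has at least `μ (T + 1 - k)` elements and is not as
wanted for `m = μ (T - k)`: there is `w_k` with at least `m` elements `i ∈ I_k`, `ρ w_k i`, and some `i_k ∈ I_k` with
`¬ ρ w_k i_k`; `I_(k+1) = {i ∈ I_k | ρ w_k i}`.  `T` steps give an excluded chain. -/
def S_Cl : Prop := ∀ T K L : ℕ, ∃ N : ℕ, ∀ (W : Type) (ρ : W → ℕ → Prop) (I : Finset ℕ),
  N ≤ I.card → (¬ ∃ (w : ℕ → W) (i : ℕ → ℕ), (∀ a < T, i a ∈ I ∧ ¬ ρ (w a) (i a)) ∧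
    ∀ a b, a < b → b < T → ρ (w a) (i b)) →
  ∃ m, ∃ I' ⊆ I, L ≤ m ∧ K * m ≤ I'.card ∧
    ∀ w, (∀ i ∈ I', ρ w i) ∨ {i | i ∈ I' ∧ ρ w i}.ncard < m

/-- **KB.** `H3`-free graphs without large complete bipartite subgraphs have bounded layouts (A0/Q0, A0/Kt with `H3`
instead of `K4:0,1`). -/
def S_KB : Prop := ∀ n : ℕ, ∃ k : ℕ, ∀ (V : Type) [Finite V] (G : SimpleGraph V), H3T.Fr3 G →
  (¬ ∃ Q₁ Q₂ : Set V, Disjoint Q₁ Q₂ ∧ n ≤ Q₁.ncard ∧ n ≤ Q₂.ncard ∧ ∀ a ∈ Q₁, ∀ b ∈ Q₂, G.Adj a b) →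
  Lay G k Set.univ

/-- **beta** (helper22): no half graphs of a clique and a stable set.  (By `Rep`-reversal `HP .. false true` is the same.) -/
def S_Be : Prop := ∀ m : ℕ, 1 ≤ m → ∀ β : ℕ → ℕ, ∃ c₀ n : ℕ, ∀ (V : Type) [Finite V]
  (G : SimpleGraph V), Rep.Fr (F9.KF 3 3 ![{0}, {0, 1}, {1, 2}]) J4 G →
    NoT {(true, false, false)} m G → Link β c₀ G → H3.SPo G Set.univ → H3.NoU G →
      ∀ a b, ¬ HP G n true false a b

/-- **NB.** No other patterns than induced matchings and half graphs of two cliques. -/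
def S_NB : Prop := ∀ m : ℕ, 1 ≤ m → ∀ β : ℕ → ℕ, ∃ c₀ N : ℕ, ∀ (V : Type) [Finite V]
  (G : SimpleGraph V), Rep.Fr (F9.KF 3 3 ![{0}, {0, 1}, {1, 2}]) J4 G →
    NoT {(true, false, false)} m G → Link β c₀ G → H3.SPo G Set.univ → H3.NoU G → NB G N

/-- **The final theorem**, the hypothesis of `Rep.x3H1`. -/
def S_N : Prop := ∀ m : ℕ, 1 ≤ m → ∀ β : ℕ → ℕ, ∃ c₀ n : ℕ, ∀ (V : Type) [Finite V]
  (G : SimpleGraph V), Rep.Fr (F9.KF 3 3 ![{0}, {0, 1}, {1, 2}]) J4 G →
    NoT {(true, false, false)} m G → Link β c₀ G → H3.SPo G Set.univ → H3.NoU G →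
      NoTP G n false false false

end Pool.Agent.MPd439b2.H3N
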