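import Pool.Agent.Lib.MP_d439b2_co.X3.H3N.VP

/-!
# MP_d439b2_co, X3/H3N, Dl: Theorem Delta (helper12; note 2892 (A) of helper70)
-/

set_option autoImplicit false

namespace Pool.Agent.MPd439b2.H3N

open Pool.Agent.MPd439b2 Pool.Agent.MPd439b2.BU Pool.Agent.MPd439b2.HC

namespace Dlx

/-- the certificates for the codes `64, .., 127` of the ninth vertex -/
def tab : List (List (List ℕ)) :=
  [
  [[6,0],[4],[3],[8],[1],[2]], [[0],[4],[3],[8],[1],[2]], [[1],[0],[5,4,2],[8],[7],[3]], [],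
  [[4,2],[0],[1],[8],[3],[7]], [[6,1],[4,2],[5],[7],[8],[3]], [[1],[0],[5,4],[8],[7],[3]],
  [[1],[8,2],[5,4],[7],[6],[3]], [[3],[4],[7,0],[8],[2],[1]], [[0],[3],[5,4],[7],[8],[2]],
  [[0],[8,3],[5,4],[7],[6],[2]], [[0],[3],[5,4],[7],[8],[2]], [[0],[8,3],[5,4],[7],[6],[2]],
  [[0],[8],[5,4,3],[7],[6],[2]], [[1],[8],[5,4,3],[7],[6],[2]], [[0],[8],[5,4,3],[7],[6],[2]],
  [[4],[0],[1],[8],[3],[7]], [[0],[5],[3],[8],[1],[2]], [[1],[0],[5,2],[8],[7],[3]],
  [[0],[4],[5,3],[7],[8],[2]], [[4],[0],[1],[8],[3],[7]], [[0],[8],[5,4,3],[7],[6],[2]],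
  [[1],[8],[5,4,3],[7],[6],[2]], [[0],[8],[5,4,3],[7],[6],[2]], [[3],[5],[7,0],[8],[2],[1]],
  [[0],[3],[5],[7],[8],[2]], [[1],[8],[5,4,2],[7],[6],[3]], [[1],[8],[5,4,2],[7],[6],[3]],
  [[0],[8,3],[5,4],[7],[6],[2]], [[0],[8],[5,4,3],[7],[6],[2]], [[1],[8],[5,4,3],[7],[6],[2]],
  [[0],[8],[5,4,3],[7],[6],[2]], [[5],[0],[1],[8],[3],[7]], [[0],[4],[3],[8],[1],[2]],
  [[1],[0],[4,2],[8],[7],[3]], [[0],[5],[4,3],[7],[8],[2]], [[5],[0],[1],[8],[3],[7]],
  [[0],[8],[5,4,3],[7],[6],[2]], [[1],[8],[5,4,3],[7],[6],[2]], [[0],[8],[5,4,3],[7],[6],[2]],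
  [[3],[4],[7,0],[8],[2],[1]], [[0],[3],[4],[7],[8],[2]], [[1],[8],[5,4,2],[7],[6],[3]],
  [[1],[8],[5,4,2],[7],[6],[3]], [[0],[8,3],[5,4],[7],[6],[2]], [[0],[8],[5,4,3],[7],[6],[2]],
  [[1],[8],[5,4,3],[7],[6],[2]], [[0],[8],[5,4,3],[7],[6],[2]], [[4],[0],[1],[8],[3],[7]],
  [[0],[4],[3],[7],[8],[2]], [[0],[1],[6],[3],[7],[8]], [[0],[4],[3],[7],[8],[2]],
  [[4],[0],[1],[8],[3],[7]], [[0],[8],[5,4,3],[7],[6],[2]], [[1],[8],[5,4,3],[7],[6],[2]],
  [[0],[8],[5,4,3],[7],[6],[2]], [[0],[8,3],[5,4],[7],[6],[2]], [[4],[0],[1],[2],[8],[7]],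
  [[1],[8],[5,4,2],[7],[6],[3]], [[1],[8],[5,4,2],[7],[6],[3]], [[0],[8,3],[5,4],[7],[6],[2]],
  [[0],[8],[5,4,3],[7],[6],[2]], [[1],[8],[5,4,3],[7],[6],[2]], [[0],[8],[5,4,3],[7],[6],[2]]]

theorem tab_ok : ((List.range 64).all fun t => Nat.beq t 3 ||
    chkG 9 6 (rc ([0, 1, 0, 5, 15, 31, 3, 3] ++ [64 + t])) r3 (tab.getD t [])) = true := by
  decide +kernel

theorem use {t : ℕ} (h1 : t < 256) (h2 : t.testBit 6 = true) (h3 : ¬ t.testBit 7 = true) :
    t = 67 ∨ chkG 9 6 (rc ([0, 1, 0, 5, 15, 31, 3, 3] ++ [t])) r3 (tab.getD (t - 64) []) = true := by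
  have h4 : 64 ≤ t := by
    by_contra h
    rw [Nat.testBit_lt_two_pow (show t < 2 ^ 6 by omega)] at h2
    exact Bool.noConfusion h2
  have h5 : t < 128 := by
    by_contra h
    apply h3
    rw [Nat.testBit_eq_decide_div_mod_eq]
    simp only [decide_eq_true_eq]
    omega
  have h6 := List.all_eq_true.1 tab_ok (t - 64) (List.mem_range.2 (by omega))
  rw [Bool.or_eq_true, show 64 + (t - 64) = t by omega] at h6
  rcases h6 with h6 | h6
  · left
    have := Nat.eq_of_beq_eq_true h6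
    omega
  · exact Or.inr h6

variable {V : Type} {G : SimpleGraph V}

/-- the eight vertices -/
def f8 (u : Fin 2 → V) (w : Fin 4 → V) (s r : V) : ℕ → V
  | 0 => u 0
  | 1 => u 1
  | 2 => w 0
  | 3 => w 1
  | 4 => w 2
  | 5 => w 3
  | 6 => s
  | _ => r

theorem fact {u : Fin 2 → V} {w : Fin 4 → V} {s r v : V} (hG : H3T.Fr3 G)
    (huu : ∀ i j, i ≠ j → G.Adj (u i) (u j)) (hww : ∀ i j, i ≠ j → G.Adj (w i) (w j))
    (huw : ∀ i j, (G.Adj (u i) (w j) ↔ i.val < j.val)) (hs : (∀ i, G.Adj s (u i)) ∧ ∀ j, ¬ G.Adj s (w j))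
    (hr : (∀ i, G.Adj r (u i)) ∧ ∀ j, ¬ G.Adj r (w j)) (hsr : ¬ G.Adj s r) (hvs : G.Adj v s)
    (hvr : ¬ G.Adj v r) : (∀ i, G.Adj v (u i)) ∧ ∀ j, ¬ G.Adj v (w j) := by
  have hne : s ≠ r := fun h => hvr (h ▸ hvs)
  have a1 : ∀ i j, (G.Adj (u i) (u j) ↔ i ≠ j) := fun i j =>
    ⟨fun h e => G.loopless.irrefl _ (e ▸ h), huu i j⟩
  have a2 : ∀ i j, (G.Adj (w i) (w j) ↔ i ≠ j) := fun i j =>
    ⟨fun h e => G.loopless.irrefl _ (e ▸ h), hww i j⟩
  have a3 : ∀ i j, (G.Adj (w j) (u i) ↔ i.val < j.val) := fun i j => (G.adj_comm _ _).trans (huw i j)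
  have a4 : ∀ i, (G.Adj s (u i) ↔ True) := fun i => iff_true_intro (hs.1 i)
  have a5 : ∀ i, (G.Adj s (w i) ↔ False) := fun i => iff_false_intro (hs.2 i)
  have a6 : ∀ i, (G.Adj r (u i) ↔ True) := fun i => iff_true_intro (hr.1 i)
  have a7 : ∀ i, (G.Adj r (w i) ↔ False) := fun i => iff_false_intro (hr.2 i)
  have a8 : G.Adj r s ↔ False := iff_false_intro fun h => hsr h.symm
  have e1 : ∀ i : Fin 4, i ≠ i + 1 := by decide
  have e2 : ∀ (i : Fin 4) (j : Fin 2), (∀ k, (i ≠ k ↔ j.val < k.val)) →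
      (∀ l, (j ≠ l ↔ l.val < i.val)) → False := by decide
  have b1 : ∀ i j, w i ≠ u j := fun i j h =>
    e2 i j (fun k => (a2 i k).symm.trans (h ▸ huw j k)) fun l => (a1 j l).symm.trans (h ▸ a3 l i)
  have b2 : ∀ i, s ≠ w i := fun i h => hs.2 (i + 1) (h ▸ hww i (i + 1) (e1 i))
  have b3 : ∀ i, r ≠ w i := fun i h => hr.2 (i + 1) (h ▸ hww i (i + 1) (e1 i))
  have c1 : ∀ i, v ≠ u i := fun i h => hvr (h ▸ (hr.1 i).symm)
  have c2 : ∀ i, v ≠ w i := fun i h => hs.2 i (h ▸ hvs).symm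
  have c3 : v ≠ s := hvs.ne
  have c4 : v ≠ r := fun h => hsr (h ▸ hvs).symm
  have h8 : VP G 8 (f8 u w s r) [0, 1, 0, 5, 15, 31, 3, 3] := by
    refine ⟨rfl, fun i hi j hj => ?_, fun i hi j hj => ?_⟩
    · interval_cases i <;> interval_cases j <;>
        first
          | exact (huu _ _ (by decide)).ne
          | exact (hww _ _ (by decide)).ne
          | exact b1 _ _
          | exact (hs.1 _).ne
          | exact (hr.1 _).ne
          | exact b2 _
          | exact b3 _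
          | exact hne.symm
    · interval_cases i <;> interval_cases j <;>
        first
          | exact (a1 _ _).trans (by decide)
          | exact (a2 _ _).trans (by decide)
          | exact (a3 _ _).trans (by decide)
          | exact (a4 _).trans (by decide)
          | exact (a5 _).trans (by decide)
          | exact (a6 _).trans (by decide)
          | exact (a7 _).trans (by decide)
          | exact a8.trans (by decide)
  obtain ⟨t, ht, htb, h9⟩ := h8.snoc v (fun j hj => by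
    interval_cases j
    · exact c1 0
    · exact c1 1
    · exact c2 0
    · exact c2 1
    · exact c2 2
    · exact c2 3
    · exact c3
    · exact c4)
  rcases use ht ((htb 6 (by omega)).1 hvs) (fun h => hvr ((htb 7 (by omega)).2 h)) with h | h
  · subst h
    refine ⟨fun i => ?_, fun j => ?_⟩
    · fin_cases i
      · exact (htb 0 (by omega)).2 (by decide)
      · exact (htb 1 (by omega)).2 (by decide)
    · fin_cases j
      · exact fun h => absurd ((htb 2 (by omega)).1 h) (by decide)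
      · exact fun h => absurd ((htb 3 (by omega)).1 h) (by decide)
      · exact fun h => absurd ((htb 4 (by omega)).1 h) (by decide)
      · exact fun h => absurd ((htb 5 (by omega)).1 h) (by decide)
  · exact (h9.kill hG h).elim

end Dlx

/-- **Theorem Delta.** -/
theorem pDl : S_Dl := by
  intro V _ G hG hP u w s r huu hww huw hsr hnsr hu hw
  set K : Set V := {v | (∀ i, G.Adj v (u i)) ∧ ∀ j, ¬ G.Adj v (w j)} with hK
  have hsK : s ∈ K := ⟨fun i => (hu i).1, fun j => (hw j).1⟩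
  have hrK : r ∈ K := ⟨fun i => (hu i).2, fun j => (hw j).2⟩
  set M : Set V := {x | Relation.ReflTransGen (fun x y => y ∈ K ∧ ¬ G.Adj x y) s x} with hM
  have hMK : M ⊆ K := by
    intro x hx
    rcases Relation.ReflTransGen.cases_tail hx with h | ⟨y, -, h, -⟩
    · exact h ▸ hsK
    · exact h
  have hsM : s ∈ M := Relation.ReflTransGen.refl
  have hrM : r ∈ M := Relation.ReflTransGen.single ⟨hrK, hnsr⟩
  have hmg : H3.Hmg G Set.univ M := by
    intro v _ hv
    by_cases hvK : v ∈ K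
    · left
      intro m hm
      by_contra h
      exact hv (Relation.ReflTransGen.tail hm ⟨hvK, fun h' => h h'.symm⟩)
    · have key : ∀ m ∈ M, (G.Adj v m ↔ G.Adj v s) := by
        intro m hm
        induction hm with
        | refl => exact Iff.rfl
        | @tail x y hx hxy ih =>
          rw [← ih]
          have hxK : x ∈ K := hMK hx
          constructor
          · intro h
            by_contra h'
            exact hvK (Dlx.fact hG huu hww huw hxy.1 hxK (fun h'' => hxy.2 h''.symm) h h')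
          · intro h
            by_contra h'
            exact hvK (Dlx.fact hG huu hww huw hxK hxy.1 hxy.2 h h')
      by_cases h : G.Adj v s
      · exact Or.inl fun m hm => (key m hm).2 h
      · exact Or.inr fun m hm h' => h ((key m hm).1 h')
  have hne : M ≠ Set.univ := by
    intro h
    have h1 : u 0 ∈ M := h ▸ Set.mem_univ _
    exact G.loopless.irrefl _ ((hMK h1).1 0)
  exact hsr (hP M hne hmg hsM hrM)

end Pool.Agent.MPd439b2.H3N
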