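import Pool.Agent.Lib.MP_d439b2_co.X3.H3N.Pt
import Pool.Agent.Lib.MP_d439b2_co.X3.H3S.Kill
import Pool.Agent.Lib.MP_d439b2_co.X3.H3O.Kill
import Pool.Agent.Lib.MP_d439b2_co.H3.M0

/-!
# MP_d439b2_co, X3/H3N/NB: there are no other patterns (helper70)

`nbF : S_Be → S_NB`.  The half graph of two stable sets contains `K3:0,01,12` (`hss`).
-/

set_option autoImplicit false

namespace Pool.Agent.MPd439b2.H3N

open Pool.Agent.MPd439b2 Pool.Agent.MPd439b2.Rep

theorem fr3_of {V : Type} {G : SimpleGraph V}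
    (h : Rep.Fr (F9.KF 3 3 ![{0}, {0, 1}, {1, 2}]) J4 G) : H3T.Fr3 G := by
  unfold H3T.Fr3
  rw [← F9.kf2]
  exact h.1

/-- a half graph of two stable sets contains `K3:0,01,12` -/
theorem hss {V : Type} {G : SimpleGraph V} (h3 : H3T.Fr3 G) (a b : ℕ → V) :
    ¬ HP G 5 false false a b := by
  intro h
  have dj : ∀ {u v : V}, u ≠ v → Disjoint ({u} : Set V) {v} := fun h => by
    rw [Set.disjoint_singleton]; exact h
  have dp : ∀ {w u v : V}, w ≠ u → w ≠ v → Disjoint ({w} : Set V) {u, v} := fun h1 h2 => by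
    rw [Set.disjoint_singleton_left]
    rintro (h | h)
    · exact h1 h
    · exact h2 h
  have nt : ∀ {u v : V}, ¬ G.Adj u v → ¬ Tch G {u} {v} := by
    rintro u v h ⟨a, ha, b, hb, hab⟩
    rw [Set.mem_singleton_iff] at ha hb
    subst ha; subst hb
    exact h hab
  have nt2 : ∀ {u v w : V}, ¬ G.Adj u v → ¬ G.Adj u w → ¬ Tch G {u} {v, w} := by
    rintro u v w h h' ⟨a, ha, b, hb, hab⟩
    rw [Set.mem_singleton_iff] at ha
    subst ha
    rcases hb with rfl | hb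
    · exact h hab
    · rw [Set.mem_singleton_iff] at hb
      subst hb
      exact h' hab
  have aa : ∀ i < 5, ∀ j < 5, ¬ G.Adj (a i) (a j) := fun i hi j hj h' => by
    by_cases hij : i = j
    · subst hij
      exact G.irrefl h'
    · exact absurd ((h.aa i hi j hj hij).1 h') (by decide)
  have bb : ∀ i < 5, ∀ j < 5, ¬ G.Adj (b i) (b j) := fun i hi j hj h' => by
    by_cases hij : i = j
    · subst hij
      exact G.irrefl h'
    · exact absurd ((h.bb i hi j hj hij).1 h') (by decide)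
  have ab : ∀ i < 5, ∀ j < 5, i < j → G.Adj (a i) (b j) := fun i hi j hj hij =>
    (h.ab i hi j hj).2 hij
  have nab : ∀ i < 5, ∀ j < 5, ¬ i < j → ¬ G.Adj (a i) (b j) := fun i hi j hj hij h' =>
    hij ((h.ab i hi j hj).1 h')
  have l0 : 0 < 5 := by norm_num
  have l1 : 1 < 5 := by norm_num
  have l2 : 2 < 5 := by norm_num
  have l3 : 3 < 5 := by norm_num
  have l4 : 4 < 5 := by norm_num
  have d := h.dis
  have ia := h.ia
  have ib := h.ib
  apply h3
  refine H3.pfM0 V G {a 0} {a 1, b 3} {b 4} {b 1} {b 2} {a 2} (Conn.singleton G _)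
    (Conn.pair (ab 1 l1 3 l3 (by norm_num))) (Conn.singleton G _) (Conn.singleton G _)
    (Conn.singleton G _) (Conn.singleton G _)
    (dp (ia 0 l0 1 l1 (by norm_num)) (d 0 l0 3 l3)) (dj (d 0 l0 4 l4))
    (dp (d 1 l1 4 l4).symm (ib 4 l4 3 l3 (by norm_num))).symm
    (dj (d 0 l0 1 l1).symm) (dp (d 1 l1 1 l1).symm (ib 1 l1 3 l3 (by norm_num)))
    (dj (ib 1 l1 4 l4 (by norm_num)))
    (dj (d 0 l0 2 l2).symm) (dp (d 1 l1 2 l2).symm (ib 2 l2 3 l3 (by norm_num)))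
    (dj (ib 2 l2 4 l4 (by norm_num)))
    (dj (ia 2 l2 0 l0 (by norm_num))) (dp (ia 2 l2 1 l1 (by norm_num)) (d 2 l2 3 l3))
    (dj (d 2 l2 4 l4))
    (dj (ib 1 l1 2 l2 (by norm_num))) (dj (d 2 l2 1 l1).symm) (dj (d 2 l2 2 l2).symm)
    (Tch.of_adj (ab 0 l0 3 l3 (by norm_num)) rfl (Or.inr rfl))
    (Tch.of_adj (ab 0 l0 4 l4 (by norm_num)) rfl rfl)
    (Tch.of_adj (ab 1 l1 4 l4 (by norm_num)) (Or.inl rfl) rfl)
    (Tch.of_adj (ab 0 l0 1 l1 (by norm_num)).symm rfl rfl)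
    (nt2 (fun h' => nab 1 l1 1 l1 (by norm_num) h'.symm) (bb 1 l1 3 l3))
    (nt (bb 1 l1 4 l4))
    (Tch.of_adj (ab 0 l0 2 l2 (by norm_num)).symm rfl rfl)
    (Tch.of_adj (ab 1 l1 2 l2 (by norm_num)).symm rfl (Or.inl rfl))
    (nt (bb 2 l2 4 l4))
    (Tch.of_adj (ab 2 l2 3 l3 (by norm_num)) rfl (Or.inr rfl))
    (Tch.of_adj (ab 2 l2 4 l4 (by norm_num)) rfl rfl)
    (nt (aa 2 l2 0 l0)) (nt (bb 1 l1 2 l2))
    (nt fun h' => nab 2 l2 1 l1 (by norm_num) h'.symm)
    (nt fun h' => nab 2 l2 2 l2 (by norm_num) h'.symm)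

theorem nbF : S_Be → S_NB := by
  intro hBe m hm β
  obtain ⟨c1, n1, h1⟩ := hBe m hm β
  obtain ⟨c2, n2, h2⟩ := killJ (F9.KF 3 3 ![{0}, {0, 1}, {1, 2}]) β
  obtain ⟨c3, n3, h3⟩ := killR (F9.KF 3 3 ![{0}, {0, 1}, {1, 2}]) β
  obtain ⟨c4, n4, h4⟩ := H3S.killThick β
  obtain ⟨c5, n5, h5⟩ := X3.killModO m β
  refine ⟨max c1 (max c2 (max c3 (max c4 c5))),
    max 5 (max m (max n1 (max n2 (max n3 (max n4 n5))))), fun V _ G hF hT hL hS hU => ?_⟩
  have k1 := h1 V G hF hT (link_mono (by omega) hL) hS hU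
  have k2 := h2 V G hF (link_mono (by omega) hL)
  have k3 := h3 V G hF (link_mono (by omega) hL)
  have k4 := h4 V G hF (link_mono (by omega) hL)
  have k0 : NoTP G m true false false := hT (true, false, false) rfl
  have k5 := h5 V G hF (link_mono (by omega) hL) k0
  refine ⟨?_, ?_⟩
  · intro s t e hst
    rcases s with _ | _ <;> rcases t with _ | _ <;> rcases e with _ | _
    · exact absurd ⟨rfl, rfl, rfl⟩ hst
    · exact k3.mono (by omega)
    · exact (k0.mono (by omega)).swap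
    · exact (k4.mono (by omega)).swap
    · exact k0.mono (by omega)
    · exact k4.mono (by omega)
    · exact k2.mono (by omega)
    · exact k5.mono (by omega)
  · intro s t hst a b hab
    rcases s with _ | _ <;> rcases t with _ | _
    · exact hss (fr3_of hF) a b (hab.mono (by omega))
    · exact k1 _ _ ((hab.rev).mono (by omega))
    · exact k1 _ _ (hab.mono (by omega))
    · exact hst ⟨rfl, rfl⟩

end Pool.Agent.MPd439b2.H3N
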