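import Pool.Agent.Lib.MP_d439b2_co.X3.H3N.VP

/-!
# MP_d439b2_co, X3/H3N, Za: Theorem Z-alpha (helper12; note 2892 (B) of helper70)
-/

set_option autoImplicit false

namespace Pool.Agent.MPd439b2.H3N

open Pool.Agent.MPd439b2 Pool.Agent.MPd439b2.BU Pool.Agent.MPd439b2.HC

namespace Zax

/-- the codes of the half graph -/
def b8 : List ℕ := [0, 1, 3, 7, 0, 17, 51, 119]

/-- the certificates for (f1) -/
def tab1 : List (List (List ℕ)) :=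
  [
  [], [[0],[6],[5],[8],[1],[4]], [[1],[7],[6,5],[8],[2],[4]], [[0],[7],[6,5],[8],[2],[4]],
  [[2],[0],[7,6,4],[8],[3],[5]], [[0],[6],[5],[8],[1],[4]], [[1],[0],[7,6,4],[8],[3],[5]],
  [[8,0],[7,2],[5],[9],[1],[4]], [[3,0],[7,2],[5],[8],[1],[4]], [[0],[6],[5],[8],[1],[4]],
  [[1],[7],[6,5],[8],[2],[4]], [[0],[7],[6,5],[8],[2],[4]], [[2,0],[6],[5],[8],[1],[4]],
  [[0],[6],[5],[8],[1],[4]], [[8,1],[5,0],[6],[9],[2],[4]], [[8,0],[7,2],[5],[9],[1],[4]],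
  [[6,4],[0],[3,1],[8],[5],[2]], [[6,4],[7],[3,1],[8],[5],[2]], [[1],[0],[6],[8],[2],[5]],
  [[1],[7],[6],[8],[2],[5]], [[2],[0],[7,6],[8],[3],[5]], [[8],[0],[6,4],[9],[2],[5]],
  [[1],[0],[7,6],[8],[3],[5]], [[8],[0],[6,4],[9],[2],[5]], [[8,3],[6,0],[4],[9],[1],[5]],
  [[8],[0],[7,6,4],[9],[3],[5]], [[1],[0],[6],[8],[2],[5]], [[1],[7],[6],[8],[2],[5]],
  [[8,2],[6,0],[4],[9],[1],[5]], [[8],[0],[6,4],[9],[2],[5]], [[8],[1],[7,5,4],[9],[3],[6]],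
  [[8],[0],[6,4],[9],[2],[5]], [[5],[6],[3,2,0],[8],[4],[1]], [[0],[7],[6],[8],[2],[4]],
  [[1],[7],[6],[8],[2],[4]], [[0],[7],[6],[8],[2],[4]], [[2],[0],[7,4],[8],[3],[6]],
  [[8],[0],[5,4],[9],[2],[6]], [[2],[0],[7,4],[8],[3],[6]], [[8],[0],[5,4],[9],[2],[6]],
  [[5],[6],[2,0],[8],[4],[1]], [[0],[7],[6],[8],[2],[4]], [[1],[7],[6],[8],[2],[4]],
  [[0],[7],[6],[8],[2],[4]], [[5],[6],[0],[8],[4],[1]], [[8],[0],[5,4],[9],[2],[6]],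
  [[8],[1],[7,5,4],[9],[3],[6]], [[8],[0],[5,4],[9],[2],[6]], [[8,5],[7,2],[3,0],[9],[4],[1]],
  [[8,5],[7,2],[3,0],[9],[4],[1]], [[8],[6,5],[3,2,1],[9],[4],[0]], [[8],[0],[3,1],[9],[5],[2]],
  [[2],[0],[7],[8],[3],[6]], [[8],[0],[5,4],[9],[2],[6]], [[2],[0],[7],[8],[3],[6]],
  [[8],[0],[5,4],[9],[2],[6]], [[8,3],[0],[5,4],[9],[2],[6]], [[8],[0],[7,5,4],[9],[3],[6]],
  [[8],[1],[7,5,4],[9],[3],[6]], [[8],[0],[7,5,4],[9],[3],[6]], [[8,3],[0],[5,4],[9],[2],[6]],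
  [[8],[0],[5,4],[9],[2],[6]], [[8],[1],[7,5,4],[9],[3],[6]], [[8],[0],[5,4],[9],[2],[6]],
  [[6],[7],[3,1,0],[8],[4],[2]], [[0],[7],[5],[8],[1],[4]], [[1],[0],[7,4],[8],[3],[5]],
  [[0],[7],[5],[8],[2],[4]], [[2],[0],[7,4],[8],[3],[5]], [[0],[7],[5],[8],[1],[4]],
  [[1],[0],[7,4],[8],[3],[5]], [[8],[0],[6,4],[9],[2],[5]], [[6],[7],[1,0],[8],[4],[2]],
  [[0],[7],[5],[8],[1],[4]], [[8],[1],[6,5,4],[9],[3],[7]], [[0],[7],[5],[8],[2],[4]],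
  [[2,0],[7],[5],[8],[1],[4]], [[0],[7],[5],[8],[1],[4]], [[8],[1],[6,5,4],[9],[3],[7]],
  [[8],[0],[6,4],[9],[2],[5]], [[6],[0],[3,1],[8],[5],[2]], [[8],[6],[3,2,0],[9],[4],[1]],
  [[8],[6],[4],[9],[1],[5]], [[8],[6],[4],[9],[1],[5]], [[2],[0],[7],[8],[3],[5]],
  [[8],[0],[6,4],[9],[2],[5]], [[8],[6],[4],[9],[1],[5]], [[8],[6],[4],[9],[1],[5]],
  [[8],[6],[3,2,1],[9],[4],[0]], [[8],[0],[7,6,4],[9],[3],[5]], [[8],[6],[4],[9],[1],[5]],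
  [[8],[6],[4],[9],[1],[5]], [[8],[6],[3,2,1],[9],[4],[0]], [[8],[0],[6,4],[9],[2],[5]],
  [[8],[6],[4],[9],[1],[5]], [[8],[6],[4],[9],[1],[5]], [[5],[7],[3,2,0],[8],[4],[1]],
  [[6],[7],[3,1],[8],[4],[2]], [[8],[6],[5],[9],[1],[4]], [[8],[6],[5],[9],[1],[4]],
  [[5],[7],[3,0],[8],[4],[1]], [[8],[0],[3,2],[9],[5],[1]], [[8],[6],[5],[9],[1],[4]],
  [[8],[6],[5],[9],[1],[4]], [[5],[7],[2,0],[8],[4],[1]], [[8],[0],[6,5,4],[9],[3],[7]],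
  [[8],[6],[5],[9],[1],[4]], [[8],[6],[5],[9],[1],[4]], [[5],[7],[0],[8],[4],[1]],
  [[8],[0],[6,5,4],[9],[3],[7]], [[8],[6],[5],[9],[1],[4]], [[8],[6],[5],[9],[1],[4]],
  [[8,5],[7,2],[3,0],[9],[4],[1]], [[8],[6],[3,2,0],[9],[4],[1]], [[8],[6],[3,2,1],[9],[4],[0]],
  [[8],[0],[3,1],[9],[5],[2]], [[8],[6],[3,2,1],[9],[4],[0]], [[8],[6],[3,2,0],[9],[4],[1]],
  [[8],[6],[3,2,1],[9],[4],[0]], [[8],[0],[2,1],[9],[5],[3]], [[8],[6],[3,2,1],[9],[4],[0]],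
  [[8],[0],[6,5,4],[9],[3],[7]], [[8],[1],[6,5,4],[9],[3],[7]], [[8],[0],[6,5,4],[9],[3],[7]],
  [[8],[6],[3,2,1],[9],[4],[0]], [[8],[0],[6,5,4],[9],[3],[7]], [[8],[1],[6,5,4],[9],[3],[7]],
  [[8],[0],[6,5,4],[9],[3],[7]], [[7],[0],[2,1],[8],[5],[3]], [[0],[6],[5],[8],[1],[4]],
  [[1],[0],[6,4],[8],[2],[5]], [[7],[0],[2],[4],[8],[3]], [[7],[0],[1],[8],[5],[3]],
  [[0],[6],[5],[8],[1],[4]], [[1],[0],[6,4],[8],[3],[5]], [[0],[7],[6,5],[3],[8],[4]],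
  [[3,0],[6],[5],[8],[1],[4]], [[0],[6],[5],[8],[1],[4]], [[1],[0],[6,4],[8],[2],[5]],
  [[8],[0],[7,6,4],[9],[3],[5]], [[2,0],[6],[5],[8],[1],[4]], [[0],[6],[5],[8],[1],[4]],
  [[8],[1],[7,5,4],[9],[3],[6]], [[8],[0],[7,6,4],[9],[3],[5]], [[7],[0],[2,1],[8],[5],[3]],
  [[8],[7],[3,2,0],[9],[4],[1]], [[8],[7],[4],[9],[1],[5]], [[8],[7],[4],[9],[1],[5]],
  [[8],[7],[6,4],[9],[2],[5]], [[8],[0],[6,4],[9],[2],[5]], [[8],[7],[4],[9],[1],[5]],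
  [[8],[7],[4],[9],[1],[5]], [[8],[7],[3,2,1],[9],[4],[0]], [[8],[0],[7,6,4],[9],[3],[5]],
  [[8],[7],[4],[9],[1],[5]], [[8],[7],[4],[9],[1],[5]], [[8],[7],[6,4],[9],[2],[5]],
  [[8],[0],[6,4],[9],[2],[5]], [[8],[7],[4],[9],[1],[5]], [[8],[7],[4],[9],[1],[5]],
  [[5],[6],[3,2,0],[8],[4],[1]], [[7],[1],[2],[8],[6],[3]], [[8],[7],[5],[9],[1],[4]],
  [[8],[7],[5],[9],[1],[4]], [[8],[7],[6,5],[9],[2],[4]], [[8],[7],[6,5],[9],[2],[4]],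
  [[8],[7],[5],[9],[1],[4]], [[8],[7],[5],[9],[1],[4]], [[5],[6],[2,0],[8],[4],[1]],
  [[8],[0],[7,5,4],[9],[3],[6]], [[8],[7],[5],[9],[1],[4]], [[8],[7],[5],[9],[1],[4]],
  [[8],[7],[6,5],[9],[2],[4]], [[8],[7],[6,5],[9],[2],[4]], [[8],[7],[5],[9],[1],[4]],
  [[8],[7],[5],[9],[1],[4]], [[7],[0],[2],[8],[6],[3]], [[8],[7],[3,2,0],[9],[4],[1]],
  [[8],[7],[3,2,1],[9],[4],[0]], [[8],[7],[3,1,0],[9],[4],[2]], [[8],[7],[5,4],[9],[2],[6]],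
  [[8],[0],[5,4],[9],[2],[6]], [[8],[7],[5,4],[9],[2],[6]], [[8],[0],[5,4],[9],[2],[6]],
  [[8],[7],[3,2,1],[9],[4],[0]], [[8],[0],[7,5,4],[9],[3],[6]], [[8],[1],[7,5,4],[9],[3],[6]],
  [[8],[0],[7,5,4],[9],[3],[6]], [[8],[7],[5,4],[9],[2],[6]], [[8],[0],[5,4],[9],[2],[6]],
  [[8],[7],[5,4],[9],[2],[6]], [[8],[0],[5,4],[9],[2],[6]], [[6],[0],[3,1],[8],[5],[2]],
  [[6],[0],[3,1],[4],[8],[2]], [[7],[0],[2],[8],[5],[3]], [[7],[0],[2],[4],[8],[3]],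
  [[8],[7],[6,5],[9],[2],[4]], [[8],[7],[6,5],[9],[2],[4]], [[8],[7],[6,5],[9],[2],[4]],
  [[8],[7],[6,5],[9],[2],[4]], [[6],[0],[1],[8],[5],[2]], [[8],[0],[7,6,4],[9],[3],[5]],
  [[8],[1],[3],[9],[6],[2]], [[8],[0],[7,6,4],[9],[3],[5]], [[8],[7],[6,5],[9],[2],[4]],
  [[8],[7],[6,5],[9],[2],[4]], [[8],[7],[6,5],[9],[2],[4]], [[8],[7],[6,5],[9],[2],[4]],
  [[6],[0],[3,1],[8],[5],[2]], [[8],[6],[3,2,0],[9],[4],[1]], [[8],[6],[4],[9],[1],[5]],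
  [[8],[6],[4],[9],[1],[5]], [[8],[7],[6,4],[9],[2],[5]], [[8],[0],[6,4],[9],[2],[5]],
  [[8],[6],[4],[9],[1],[5]], [[8],[6],[4],[9],[1],[5]], [[8],[6],[3,2,1],[9],[4],[0]],
  [[8],[0],[7,6,4],[9],[3],[5]], [[8],[6],[4],[9],[1],[5]], [[8],[6],[4],[9],[1],[5]],
  [[8],[7],[6,4],[9],[2],[5]], [[8],[0],[6,4],[9],[2],[5]], [[8],[6],[4],[9],[1],[5]],
  [[8],[6],[4],[9],[1],[5]], [[8,5],[7,2],[3,0],[9],[4],[1]], [[6],[0],[3,1],[4],[8],[2]],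
  [[8],[6],[5],[9],[1],[4]], [[8],[6],[5],[9],[1],[4]], [[8],[7],[6,5],[9],[2],[4]],
  [[8],[7],[6,5],[9],[2],[4]], [[8],[6],[5],[9],[1],[4]], [[8],[6],[5],[9],[1],[4]],
  [[8],[7],[3,2],[9],[5],[1]], [[8],[0],[3,2],[9],[5],[1]], [[8],[6],[5],[9],[1],[4]],
  [[8],[6],[5],[9],[1],[4]], [[8],[7],[6,5],[9],[2],[4]], [[8],[7],[6,5],[9],[2],[4]],
  [[8],[6],[5],[9],[1],[4]], [[8],[6],[5],[9],[1],[4]], [[8,5],[7,2],[3,0],[9],[4],[1]],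
  [[8],[6],[3,2,0],[9],[4],[1]], [[8],[6],[3,2,1],[9],[4],[0]], [[8],[7],[3,1,0],[9],[4],[2]],
  [[8],[6],[3,2,1],[9],[4],[0]], [[8],[6],[3,2,0],[9],[4],[1]], [[8],[6],[3,2,1],[9],[4],[0]],
  [[8],[0],[2,1],[9],[5],[3]], [[8],[6],[3,2,1],[9],[4],[0]], [[8],[6],[3,2,0],[9],[4],[1]],
  [[8],[6],[3,2,1],[9],[4],[0]], [[8],[7],[3,1,0],[9],[4],[2]], [[8],[6],[3,2,1],[9],[4],[0]],
  [[8],[6],[3,2,0],[9],[4],[1]], [[8],[6],[3,2,1],[9],[4],[0]], []]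

/-- the certificates for (f2) -/
def tab2 : List (List (List ℕ)) :=
  [
  [], [[0],[6],[5],[8],[1],[4]], [[1],[7],[6,5],[8],[2],[4]], [[0],[7],[6,5],[8],[2],[4]],
  [[2],[9],[7,6,5],[8],[3],[4]], [[0],[6],[5],[8],[1],[4]], [[1],[9],[7,6,5],[8],[3],[4]],
  [[0],[9],[7,6,5],[8],[3],[4]], [[3,0],[7,2],[5],[8],[1],[4]], [[0],[6],[5],[8],[1],[4]],
  [[1],[7],[6,5],[8],[2],[4]], [[0],[7],[6,5],[8],[2],[4]], [[9],[2],[3],[10],[7],[8]],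
  [[0],[6],[5],[8],[1],[4]], [[9],[1],[3,2],[10],[6],[8]], [[9],[0],[3,2,1],[10],[5],[8]],
  [[6,4],[0],[3,1],[8],[5],[2]], [[9],[0],[5,4],[10],[1],[8]], [[1],[0],[6],[8],[2],[5]],
  [[1],[7],[6],[8],[2],[5]], [[2],[0],[7,6],[8],[3],[5]], [[9],[0],[5,4],[10],[1],[8]],
  [[1],[0],[7,6],[8],[3],[5]], [[1],[9],[7,6],[8],[3],[5]], [[9,2],[3,0],[5,4],[10],[1],[8]],
  [[9],[0],[5,4],[10],[1],[8]], [[1],[0],[6],[8],[2],[5]], [[1],[7],[6],[8],[2],[5]],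
  [[9],[2],[3],[10],[7],[8]], [[9],[0],[5,4],[10],[1],[8]], [[9],[1],[3,2],[10],[6],[8]],
  [[9],[0],[3,2,1],[10],[5],[8]], [[5],[6],[3,2,0],[8],[4],[1]], [[9],[0],[5,4],[10],[1],[8]],
  [[1],[7],[6],[8],[2],[4]], [[0],[7],[6],[8],[2],[4]], [[2],[9],[7,6],[8],[3],[4]],
  [[9],[0],[5,4],[10],[1],[8]], [[1],[9],[7,6],[8],[3],[4]], [[0],[9],[7,6],[8],[3],[4]],
  [[5],[6],[2,0],[8],[4],[1]], [[9],[0],[5,4],[10],[1],[8]], [[1],[7],[6],[8],[2],[4]],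
  [[0],[7],[6],[8],[2],[4]], [[5],[6],[0],[8],[4],[1]], [[9],[0],[5,4],[10],[1],[8]],
  [[9],[5],[3,2,1,0],[10],[4],[8]], [[9],[5],[3,2,1,0],[10],[4],[8]], [[9],[5],[4],[10],[0],[8]],
  [[9],[0],[5,4],[10],[1],[8]], [[9],[5],[4],[10],[0],[8]], [[9],[0],[6,5,4],[10],[2],[8]],
  [[9],[5],[4],[10],[0],[8]], [[9],[0],[5,4],[10],[1],[8]], [[9],[5],[4],[10],[0],[8]],
  [[2],[9],[7],[8],[3],[6]], [[9],[5],[4],[10],[0],[8]], [[9],[0],[5,4],[10],[1],[8]],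
  [[9],[5],[4],[10],[0],[8]], [[9],[0],[6,5,4],[10],[2],[8]], [[9],[5],[4],[10],[0],[8]],
  [[9],[0],[5,4],[10],[1],[8]], [[9],[5],[4],[10],[0],[8]], [[9],[0],[3,2],[10],[6],[8]],
  [[6],[7],[3,1,0],[8],[4],[2]], [[0],[7],[5],[8],[1],[4]], [[9],[1],[6,5,4],[10],[2],[8]],
  [[0],[7],[5],[8],[2],[4]], [[2],[9],[7,5],[8],[3],[4]], [[0],[7],[5],[8],[1],[4]],
  [[1],[9],[7,5],[8],[3],[4]], [[0],[9],[7,5],[8],[3],[4]], [[6],[7],[1,0],[8],[4],[2]],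
  [[0],[7],[5],[8],[1],[4]], [[9],[1],[6,5,4],[10],[2],[8]], [[0],[7],[5],[8],[2],[4]],
  [[9],[6],[3,2,1,0],[10],[4],[8]], [[0],[7],[5],[8],[1],[4]], [[9],[6],[3,2,1,0],[10],[4],[8]],
  [[9],[6],[3,2,1,0],[10],[4],[8]], [[9],[6],[4],[10],[0],[8]], [[9],[0],[5,4],[10],[1],[8]],
  [[9],[6],[4],[10],[0],[8]], [[9],[0],[6,5,4],[10],[2],[8]], [[9],[6],[4],[10],[0],[8]],
  [[9],[0],[5,4],[10],[1],[8]], [[9],[6],[4],[10],[0],[8]], [[1],[9],[7],[8],[3],[5]],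
  [[9],[6],[4],[10],[0],[8]], [[9],[0],[5,4],[10],[1],[8]], [[9],[6],[4],[10],[0],[8]],
  [[9],[0],[6,5,4],[10],[2],[8]], [[9],[6],[4],[10],[0],[8]], [[9],[0],[5,4],[10],[1],[8]],
  [[9],[6],[4],[10],[0],[8]], [[9],[0],[3,2,1],[10],[5],[8]], [[9],[6],[5,4],[10],[1],[8]],
  [[9],[0],[5,4],[10],[1],[8]], [[9],[1],[6,5,4],[10],[2],[8]], [[9],[0],[6,5,4],[10],[2],[8]],
  [[9],[6],[5,4],[10],[1],[8]], [[9],[0],[5,4],[10],[1],[8]], [[1],[9],[7],[8],[3],[4]],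
  [[0],[9],[7],[8],[3],[4]], [[9],[6],[5,4],[10],[1],[8]], [[9],[0],[5,4],[10],[1],[8]],
  [[9],[1],[6,5,4],[10],[2],[8]], [[9],[0],[6,5,4],[10],[2],[8]], [[9],[6],[5,4],[10],[1],[8]],
  [[9],[0],[5,4],[10],[1],[8]], [[9],[5],[3,2,1,0],[10],[4],[8]], [[9],[5],[3,2,1,0],[10],[4],[8]],
  [[9],[5],[4],[10],[0],[8]], [[9],[0],[5,4],[10],[1],[8]], [[9],[5],[4],[10],[0],[8]],
  [[9],[0],[6,5,4],[10],[2],[8]], [[9],[5],[4],[10],[0],[8]], [[9],[0],[5,4],[10],[1],[8]],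
  [[9],[5],[4],[10],[0],[8]], [[9],[0],[7,6,5,4],[10],[3],[8]], [[9],[5],[4],[10],[0],[8]],
  [[9],[0],[5,4],[10],[1],[8]], [[9],[5],[4],[10],[0],[8]], [[9],[0],[6,5,4],[10],[2],[8]],
  [[9],[5],[4],[10],[0],[8]], [[9],[0],[5,4],[10],[1],[8]], [[9],[5],[4],[10],[0],[8]],
  [[9],[0],[3],[10],[7],[8]], [[7],[9],[2,1,0],[8],[4],[3]], [[0],[6],[5],[8],[1],[4]],
  [[1],[9],[6,5],[8],[2],[4]], [[0],[9],[6,5],[8],[2],[4]], [[9],[2],[7,6,5,4],[10],[3],[8]],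
  [[0],[6],[5],[8],[1],[4]], [[1],[9],[6,5],[8],[3],[4]], [[0],[9],[6,5],[8],[3],[4]],
  [[9],[7],[3,2,1,0],[10],[4],[8]], [[0],[6],[5],[8],[1],[4]], [[1],[9],[6,5],[8],[2],[4]],
  [[0],[9],[6,5],[8],[2],[4]], [[9],[7],[3,2,1,0],[10],[4],[8]], [[0],[6],[5],[8],[1],[4]],
  [[9],[7],[3,2,1,0],[10],[4],[8]], [[9],[7],[3,2,1,0],[10],[4],[8]], [[9],[7],[4],[10],[0],[8]],
  [[9],[0],[5,4],[10],[1],[8]], [[9],[7],[4],[10],[0],[8]], [[1],[9],[6],[8],[2],[5]],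
  [[9],[7],[4],[10],[0],[8]], [[9],[0],[5,4],[10],[1],[8]], [[9],[7],[4],[10],[0],[8]],
  [[1],[9],[6],[8],[3],[5]], [[9],[7],[4],[10],[0],[8]], [[9],[0],[5,4],[10],[1],[8]],
  [[9],[7],[4],[10],[0],[8]], [[1],[9],[6],[8],[2],[5]], [[9],[7],[4],[10],[0],[8]],
  [[9],[0],[5,4],[10],[1],[8]], [[9],[7],[4],[10],[0],[8]], [[9],[0],[3,2,1],[10],[5],[8]],
  [[9],[7],[5,4],[10],[1],[8]], [[9],[0],[5,4],[10],[1],[8]], [[1],[9],[6],[8],[2],[4]],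
  [[0],[9],[6],[8],[2],[4]], [[9],[7],[5,4],[10],[1],[8]], [[9],[0],[5,4],[10],[1],[8]],
  [[1],[9],[6],[8],[3],[4]], [[0],[9],[6],[8],[3],[4]], [[9],[7],[5,4],[10],[1],[8]],
  [[9],[0],[5,4],[10],[1],[8]], [[1],[9],[6],[8],[2],[4]], [[0],[9],[6],[8],[2],[4]],
  [[9],[7],[5,4],[10],[1],[8]], [[9],[0],[5,4],[10],[1],[8]], [[9],[5],[3,2,1,0],[10],[4],[8]],
  [[9],[5],[3,2,1,0],[10],[4],[8]], [[9],[5],[4],[10],[0],[8]], [[9],[0],[5,4],[10],[1],[8]],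
  [[9],[5],[4],[10],[0],[8]], [[9],[0],[6,5,4],[10],[2],[8]], [[9],[5],[4],[10],[0],[8]],
  [[9],[0],[5,4],[10],[1],[8]], [[9],[5],[4],[10],[0],[8]], [[9],[0],[7,6,5,4],[10],[3],[8]],
  [[9],[5],[4],[10],[0],[8]], [[9],[0],[5,4],[10],[1],[8]], [[9],[5],[4],[10],[0],[8]],
  [[9],[0],[6,5,4],[10],[2],[8]], [[9],[5],[4],[10],[0],[8]], [[9],[0],[5,4],[10],[1],[8]],
  [[9],[5],[4],[10],[0],[8]], [[9],[0],[3,2],[10],[6],[8]], [[9],[7],[6,5,4],[10],[2],[8]],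
  [[0],[9],[5],[8],[1],[4]], [[9],[1],[6,5,4],[10],[2],[8]], [[0],[9],[5],[8],[2],[4]],
  [[9],[2],[7,6,5,4],[10],[3],[8]], [[0],[9],[5],[8],[1],[4]], [[9],[1],[7,6,5,4],[10],[3],[8]],
  [[0],[9],[5],[8],[3],[4]], [[9],[7],[6,5,4],[10],[2],[8]], [[0],[9],[5],[8],[1],[4]],
  [[9],[1],[6,5,4],[10],[2],[8]], [[0],[9],[5],[8],[2],[4]], [[9],[6],[3,2,1,0],[10],[4],[8]],
  [[0],[9],[5],[8],[1],[4]], [[9],[6],[3,2,1,0],[10],[4],[8]], [[9],[6],[3,2,1,0],[10],[4],[8]],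
  [[9],[6],[4],[10],[0],[8]], [[9],[0],[5,4],[10],[1],[8]], [[9],[6],[4],[10],[0],[8]],
  [[9],[0],[6,5,4],[10],[2],[8]], [[9],[6],[4],[10],[0],[8]], [[9],[0],[5,4],[10],[1],[8]],
  [[9],[6],[4],[10],[0],[8]], [[9],[0],[7,6,5,4],[10],[3],[8]], [[9],[6],[4],[10],[0],[8]],
  [[9],[0],[5,4],[10],[1],[8]], [[9],[6],[4],[10],[0],[8]], [[9],[0],[6,5,4],[10],[2],[8]],
  [[9],[6],[4],[10],[0],[8]], [[9],[0],[5,4],[10],[1],[8]], [[9],[6],[4],[10],[0],[8]],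
  [[9],[0],[3,2,1],[10],[5],[8]], [[9],[6],[5,4],[10],[1],[8]], [[9],[0],[5,4],[10],[1],[8]],
  [[9],[1],[6,5,4],[10],[2],[8]], [[9],[0],[6,5,4],[10],[2],[8]], [[9],[6],[5,4],[10],[1],[8]],
  [[9],[0],[5,4],[10],[1],[8]], [[9],[1],[7,6,5,4],[10],[3],[8]], [[9],[0],[7,6,5,4],[10],[3],[8]],
  [[9],[6],[5,4],[10],[1],[8]], [[9],[0],[5,4],[10],[1],[8]], [[9],[1],[6,5,4],[10],[2],[8]],
  [[9],[0],[6,5,4],[10],[2],[8]], [[9],[6],[5,4],[10],[1],[8]], [[9],[0],[5,4],[10],[1],[8]],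
  [[9],[5],[3,2,1,0],[10],[4],[8]], [[9],[5],[3,2,1,0],[10],[4],[8]], [[9],[5],[4],[10],[0],[8]],
  [[9],[0],[5,4],[10],[1],[8]], [[9],[5],[4],[10],[0],[8]], [[9],[0],[6,5,4],[10],[2],[8]],
  [[9],[5],[4],[10],[0],[8]], [[9],[0],[5,4],[10],[1],[8]], [[9],[5],[4],[10],[0],[8]],
  [[9],[0],[7,6,5,4],[10],[3],[8]], [[9],[5],[4],[10],[0],[8]], [[9],[0],[5,4],[10],[1],[8]],
  [[9],[5],[4],[10],[0],[8]], [[9],[0],[6,5,4],[10],[2],[8]], [[9],[5],[4],[10],[0],[8]],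
  [[9],[0],[5,4],[10],[1],[8]], [[9],[5],[4],[10],[0],[8]], []]

theorem tab1_ok : ((List.range 256).all fun t => Nat.beq t 0 || Nat.beq t 255 ||
    chkG 10 6 (rc (b8 ++ [t] ++ [256])) r3 (tab1.getD t [])) = true := by
  decide +kernel

theorem tab2_ok : ((List.range 256).all fun t => Nat.beq t 0 || Nat.beq t 255 ||
    chkG 11 6 (rc (b8 ++ [t] ++ [255] ++ [512])) r3 (tab2.getD t [])) = true := by
  decide +kernel

variable {V : Type} {G : SimpleGraph V}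

/-- the eight vertices -/
def f8 (c d : Fin 4 → V) : ℕ → V
  | 0 => c 0
  | 1 => c 1
  | 2 => c 2
  | 3 => c 3
  | 4 => d 0
  | 5 => d 1
  | 6 => d 2
  | _ => d 3

/-- the half graph -/
structure HG (G : SimpleGraph V) (c d : Fin 4 → V) : Prop where
  cc : ∀ i j, i ≠ j → G.Adj (c i) (c j)
  dd : ∀ i j, i ≠ j → G.Adj (d i) (d j)
  ne : ∀ i j, c i ≠ d j
  cd : ∀ i j, (G.Adj (c i) (d j) ↔ i.val < j.val)

/-- the set of its vertices -/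
def DDz (c d : Fin 4 → V) : Set V := {x | ∃ i, x = c i ∨ x = d i}

theorem f8_mem {c d : Fin 4 → V} {j : ℕ} (hj : j < 8) : f8 c d j ∈ DDz c d := by
  interval_cases j
  · exact ⟨0, Or.inl rfl⟩
  · exact ⟨1, Or.inl rfl⟩
  · exact ⟨2, Or.inl rfl⟩
  · exact ⟨3, Or.inl rfl⟩
  · exact ⟨0, Or.inr rfl⟩
  · exact ⟨1, Or.inr rfl⟩
  · exact ⟨2, Or.inr rfl⟩
  · exact ⟨3, Or.inr rfl⟩

theorem mem_f8 {c d : Fin 4 → V} {x : V} (hx : x ∈ DDz c d) : ∃ j < 8, x = f8 c d j := by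
  obtain ⟨i, h | h⟩ := hx
  · fin_cases i
    · exact ⟨0, by omega, h⟩
    · exact ⟨1, by omega, h⟩
    · exact ⟨2, by omega, h⟩
    · exact ⟨3, by omega, h⟩
  · fin_cases i
    · exact ⟨4, by omega, h⟩
    · exact ⟨5, by omega, h⟩
    · exact ⟨6, by omega, h⟩
    · exact ⟨7, by omega, h⟩

theorem HG.vp {c d : Fin 4 → V} (h : HG G c d) : VP G 8 (f8 c d) b8 := by
  have a1 : ∀ i j, (G.Adj (c i) (c j) ↔ i ≠ j) := fun i j =>
    ⟨fun h' e => G.loopless.irrefl _ (e ▸ h'), h.cc i j⟩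
  have a2 : ∀ i j, (G.Adj (d i) (d j) ↔ i ≠ j) := fun i j =>
    ⟨fun h' e => G.loopless.irrefl _ (e ▸ h'), h.dd i j⟩
  have a3 : ∀ i j, (G.Adj (d j) (c i) ↔ i.val < j.val) := fun i j => (G.adj_comm _ _).trans (h.cd i j)
  refine ⟨rfl, fun i hi j hj => ?_, fun i hi j hj => ?_⟩
  · interval_cases i <;> interval_cases j <;>
      first
        | exact (h.cc _ _ (by decide)).ne
        | exact (h.dd _ _ (by decide)).ne
        | exact (h.ne _ _).symm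
  · interval_cases i <;> interval_cases j <;>
      first
        | exact (a1 _ _).trans (by decide)
        | exact (a2 _ _).trans (by decide)
        | exact (a3 _ _).trans (by decide)

theorem e1 : ∀ i : Fin 4, i + 1 ≠ i := by decide

theorem not_mem {c d : Fin 4 → V} (h : HG G c d) {y : V} (hy : ∀ x ∈ DDz c d, ¬ G.Adj y x) :
    y ∉ DDz c d := by
  rintro ⟨i, rfl | rfl⟩
  · exact hy (c (i + 1)) ⟨i + 1, Or.inl rfl⟩ (h.cc _ _ (e1 i).symm)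
  · exact hy (d (i + 1)) ⟨i + 1, Or.inr rfl⟩ (h.dd _ _ (e1 i).symm)

theorem code_ne {t : ℕ} {z : V} {c d : Fin 4 → V}
    (htb : ∀ j < 8, (G.Adj z (f8 c d j) ↔ t.testBit j = true))
    (h1 : ∃ x ∈ DDz c d, G.Adj z x) (h2 : ∃ x ∈ DDz c d, ¬ G.Adj z x) : t ≠ 0 ∧ t ≠ 255 := by
  constructor
  · rintro rfl
    obtain ⟨x, hx, hz⟩ := h1
    obtain ⟨j, hj, rfl⟩ := mem_f8 hx
    have := (htb j hj).1 hz
    simp at this
  · rintro rfl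
    obtain ⟨x, hx, hz⟩ := h2
    obtain ⟨j, hj, rfl⟩ := mem_f8 hx
    apply hz
    rw [htb j hj]
    clear * - hj
    interval_cases j <;> decide

/-- (f1) -/
theorem fact1 (hG : H3T.Fr3 G) {c d : Fin 4 → V} (h : HG G c d) {z y : V} (hz : z ∉ DDz c d)
    (h1 : ∃ x ∈ DDz c d, G.Adj z x) (h2 : ∃ x ∈ DDz c d, ¬ G.Adj z x) (hy : ∀ x ∈ DDz c d, ¬ G.Adj y x)
    (hyz : G.Adj y z) : False := by
  have hyD := not_mem h hy
  obtain ⟨t, ht, htb, h9⟩ := h.vp.snoc z (fun j hj e => hz (e ▸ f8_mem hj))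
  have h10 := h9.snocE y (fun j hj => by
    by_cases hj8 : j < 8
    · simp only [if_pos hj8]
      exact fun e => hyD (e ▸ f8_mem hj8)
    · simp only [if_neg hj8]
      exact hyz.ne) 256 (fun j hj => by
    by_cases hj8 : j < 8
    · simp only [if_pos hj8]
      refine iff_of_false (hy _ (f8_mem hj8)) ?_
      clear * - hj8
      interval_cases j <;> decide
    · simp only [if_neg hj8]
      have : j = 8 := by omega
      subst this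
      exact iff_of_true hyz (by decide))
  obtain ⟨n0, n255⟩ := code_ne htb h1 h2
  have h6 := List.all_eq_true.1 tab1_ok t (List.mem_range.2 ht)
  rw [Bool.or_eq_true, Bool.or_eq_true] at h6
  rcases h6 with (h6 | h6) | h6
  · exact n0 (Nat.eq_of_beq_eq_true h6)
  · exact n255 (Nat.eq_of_beq_eq_true h6)
  · exact h10.kill hG h6

/-- (f2) -/
theorem fact2 (hG : H3T.Fr3 G) {c d : Fin 4 → V} (h : HG G c d) {z a y : V} (hz : z ∉ DDz c d)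
    (h1 : ∃ x ∈ DDz c d, G.Adj z x) (h2 : ∃ x ∈ DDz c d, ¬ G.Adj z x) (ha : ∀ x ∈ DDz c d, G.Adj a x)
    (haz : ¬ G.Adj a z) (hy : ∀ x ∈ DDz c d, ¬ G.Adj y x) (hya : G.Adj y a) (hyz : ¬ G.Adj y z) :
    False := by
  have hyD := not_mem h hy
  have haD : ∀ j < 8, a ≠ f8 c d j := fun j hj e => (ha _ (f8_mem hj)).ne e
  have haz' : a ≠ z := by
    rintro rfl
    obtain ⟨x, hx, hx'⟩ := h2
    exact hx' (ha x hx)
  have hyz' : y ≠ z := by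
    rintro rfl
    obtain ⟨x, hx, hx'⟩ := h1
    exact hy x hx hx'
  obtain ⟨t, ht, htb, h9⟩ := h.vp.snoc z (fun j hj e => hz (e ▸ f8_mem hj))
  have h10 := h9.snocE a (fun j hj => by
    by_cases hj8 : j < 8
    · simp only [if_pos hj8]
      exact haD j hj8
    · simp only [if_neg hj8]
      exact haz') 255 (fun j hj => by
    by_cases hj8 : j < 8
    · simp only [if_pos hj8]
      refine iff_of_true (ha _ (f8_mem hj8)) ?_
      clear * - hj8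
      interval_cases j <;> decide
    · simp only [if_neg hj8]
      have : j = 8 := by omega
      subst this
      exact iff_of_false haz (by decide))
  have h11 := h10.snocE y (fun j hj => by
    by_cases hj9 : j < 9
    · simp only [if_pos hj9]
      by_cases hj8 : j < 8
      · simp only [if_pos hj8]
        exact fun e => hyD (e ▸ f8_mem hj8)
      · simp only [if_neg hj8]
        exact hyz'
    · simp only [if_neg hj9]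
      exact hya.ne) 512 (fun j hj => by
    by_cases hj9 : j < 9
    · simp only [if_pos hj9]
      by_cases hj8 : j < 8
      · simp only [if_pos hj8]
        refine iff_of_false (hy _ (f8_mem hj8)) ?_
        clear * - hj8
        interval_cases j <;> decide
      · simp only [if_neg hj8]
        have : j = 8 := by omega
        subst this
        exact iff_of_false hyz (by decide)
    · simp only [if_neg hj9]
      have : j = 9 := by omega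
      subst this
      exact iff_of_true hya (by decide))
  obtain ⟨n0, n255⟩ := code_ne htb h1 h2
  have h6 := List.all_eq_true.1 tab2_ok t (List.mem_range.2 ht)
  rw [Bool.or_eq_true, Bool.or_eq_true] at h6
  rcases h6 with (h6 | h6) | h6
  · exact n0 (Nat.eq_of_beq_eq_true h6)
  · exact n255 (Nat.eq_of_beq_eq_true h6)
  · exact h11.kill hG h6

/-- chains, the last element first -/
def Ch (G : SimpleGraph V) (D : Set V) : List V → Prop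
  | [] => False
  | [z] => z ∉ D ∧ (∃ x ∈ D, G.Adj z x) ∧ ∃ x ∈ D, ¬ G.Adj z x
  | z :: z' :: l => Ch G D (z' :: l) ∧ (∀ x ∈ D, G.Adj z x) ∧ ¬ G.Adj z z' ∧ ∀ x ∈ l, G.Adj z x

theorem Ch.some {D : Set V} (hD : D.Nonempty) {z : V} {l : List V} (h : Ch G D (z :: l)) :
    ∃ x ∈ D, G.Adj z x := by
  obtain ⟨x, hx⟩ := hD
  cases l with
  | nil => exact h.2.1
  | cons z' l => exact ⟨x, hx, h.2.1 x hx⟩

/-- an edge of the half graph at which `z` changes -/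
theorem edge {c d : Fin 4 → V} (h : HG G c d) {z : V} (h1 : ∃ x ∈ DDz c d, G.Adj z x)
    (h2 : ∃ x ∈ DDz c d, ¬ G.Adj z x) :
    ∃ x ∈ DDz c d, ∃ y ∈ DDz c d, G.Adj x y ∧ G.Adj z x ∧ ¬ G.Adj z y := by
  by_contra hn
  push Not at hn
  have hc : ∀ i, c i ∈ DDz c d := fun i => ⟨i, Or.inl rfl⟩
  have hd : ∀ i, d i ∈ DDz c d := fun i => ⟨i, Or.inr rfl⟩
  obtain ⟨x, hx, hzx⟩ := h1
  obtain ⟨y, hy, hzy⟩ := h2
  have h01 : G.Adj (c 0) (d 1) := (h.cd 0 1).2 (by decide)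
  have h3 : G.Adj z (c 0) := by
    obtain ⟨i, rfl | rfl⟩ := hx
    · by_cases hi : i = 0
      · rwa [← hi]
      · exact hn _ (hc i) _ (hc 0) (h.cc _ _ hi) hzx
    · have h4 : G.Adj z (d 1) := by
        by_cases hi : i = 1
        · rwa [← hi]
        · exact hn _ (hd i) _ (hd 1) (h.dd _ _ hi) hzx
      exact hn _ (hd 1) _ (hc 0) h01.symm h4
  have h4 : G.Adj z (d 1) := hn _ (hc 0) _ (hd 1) h01 h3
  apply hzy
  obtain ⟨i, rfl | rfl⟩ := hy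
  · by_cases hi : i = 0
    · rwa [hi]
    · exact hn _ (hc 0) _ (hc i) (h.cc _ _ (Ne.symm hi)) h3
  · by_cases hi : i = 1
    · rwa [hi]
    · exact hn _ (hd 1) _ (hd i) (h.dd _ _ (Ne.symm hi)) h4

/-- no vertex is adjacent only to the last element of a chain -/
theorem pend (hG : H3T.Fr3 G) {c d : Fin 4 → V} (h : HG G c d) {z y : V} {l : List V}
    (hc : Ch G (DDz c d) (z :: l)) (hyz : G.Adj y z) (hy : ∀ x ∈ DDz c d, ¬ G.Adj y x)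
    (hyl : ∀ x ∈ l, ¬ G.Adj y x) : False := by
  have hD : (DDz c d).Nonempty := ⟨c 0, 0, Or.inl rfl⟩
  match l, hc, hyl with
  | [], hc, _ => exact fact1 hG h hc.1 hc.2.1 hc.2.2 hy hyz
  | [z1], hc, hyl =>
    exact fact2 hG h hc.1.1 hc.1.2.1 hc.1.2.2 hc.2.1 hc.2.2.1 hy hyz
      (hyl z1 (List.mem_singleton.2 rfl))
  | [z2, z1], hc, hyl =>
    obtain ⟨⟨h1, h2, h3, -⟩, h4, h5, h6⟩ := hc
    obtain ⟨x, hx, x', hx', hxx, hz, hz'⟩ := edge h h1.2.1 h1.2.2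
    exact m6 hG (a := z) (b := x) (c := x') (x := y) (y := z1) (z := z2) (h4 x hx).symm
      (h4 x' hx').symm hxx hyz (hy x hx) (hy x' hx') (h6 z1 (List.mem_singleton.2 rfl)).symm hz hz'
      (h2 x hx) (h2 x' hx') (fun e => h5 e.symm) (hyl z1 (by simp)) (hyl z2 (by simp))
      (fun e => h3 e.symm)
  | z1 :: z2 :: z3 :: l, hc, hyl =>
    obtain ⟨⟨⟨h1, g2, g3, g4⟩, h2, h3, h7⟩, h4, h5, h6⟩ := hc
    obtain ⟨x, hx, hzx⟩ := h1.some hD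
    exact m6 hG (a := z) (b := x) (c := z3) (x := y) (y := z2) (z := z1) (h4 x hx).symm
      (h6 z3 (by simp)).symm hzx.symm hyz (hy x hx) (hyl z3 (by simp)) (h6 z2 (by simp)).symm
      (g2 x hx) g3 (h2 x hx) (h7 z3 (by simp)) (fun e => h5 e.symm) (hyl z2 (by simp))
      (hyl z1 (by simp)) (fun e => h3 e.symm)

end Zax

open Zax in
/-- **Theorem Z-alpha.** -/
theorem pZa : S_Za := by
  intro V _ G hG hP c d hcc hdd hne hcd v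
  have h : HG G c d := ⟨hcc, hdd, hne, hcd⟩
  have hD : (DDz c d).Nonempty := ⟨c 0, 0, Or.inl rfl⟩
  set K : Set V := {x | x ∈ DDz c d ∨ ∃ l, Ch G (DDz c d) (x :: l)} with hK
  have hmg : H3.Hmg G Set.univ K := by
    intro v _ hv
    have hvD : v ∉ DDz c d := fun h' => hv (Or.inl h')
    have hvC : ∀ l, ¬ Ch G (DDz c d) (v :: l) := fun l h' => hv (Or.inr ⟨l, h'⟩)
    by_cases h1 : ∃ x ∈ DDz c d, G.Adj v x
    · left
      have h2 : ∀ x ∈ DDz c d, G.Adj v x := by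
        by_contra h2
        push Not at h2
        exact hvC [] ⟨hvD, h1, h2⟩
      have key : ∀ (l : List V), Ch G (DDz c d) l → ∀ x ∈ l, G.Adj v x := by
        intro l
        induction l with
        | nil => exact fun h' => h'.elim
        | cons z l ih =>
          intro hc
          have h3 : ∀ x ∈ l, G.Adj v x := by
            cases l with
            | nil => simp
            | cons z' l => exact ih hc.1
          intro x hx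
          rcases List.mem_cons.1 hx with rfl | hx
          · by_contra h4
            exact hvC (x :: l) ⟨hc, h2, h4, h3⟩
          · exact h3 x hx
      rintro m (hm | ⟨l, hm⟩)
      · exact h2 m hm
      · exact key _ hm m List.mem_cons_self
    · right
      push Not at h1
      have key : ∀ (l : List V), Ch G (DDz c d) l → ∀ x ∈ l, ¬ G.Adj v x := by
        intro l
        induction l with
        | nil => exact fun h' => h'.elim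
        | cons z l ih =>
          intro hc
          have h3 : ∀ x ∈ l, ¬ G.Adj v x := by
            cases l with
            | nil => simp
            | cons z' l => exact ih hc.1
          intro x hx
          rcases List.mem_cons.1 hx with rfl | hx
          · intro h4
            exact pend hG h hc h4 h1 h3
          · exact h3 x hx
      rintro m (hm | ⟨l, hm⟩)
      · exact h1 m hm
      · exact key _ hm m List.mem_cons_self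
  have hun : K = Set.univ := by
    by_contra hne'
    have h1 := hP K hne' hmg (Or.inl ⟨0, Or.inl rfl⟩ : c 0 ∈ K) (Or.inl ⟨0, Or.inr rfl⟩ : d 0 ∈ K)
    exact hne 0 0 h1
  have hv : v ∈ K := hun ▸ Set.mem_univ v
  rcases hv with ⟨i, hv | hv⟩ | ⟨l, hv⟩
  · exact ⟨i, Or.inl hv⟩
  · exact ⟨i, Or.inr (Or.inl hv)⟩
  · obtain ⟨x, ⟨i, rfl | rfl⟩, hx⟩ := hv.some hD
    · exact ⟨i, Or.inr (Or.inr (Or.inl hx))⟩
    · exact ⟨i, Or.inr (Or.inr (Or.inr hx))⟩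

end Pool.Agent.MPd439b2.H3N
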