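import Pool.Agent.Lib.MP_d439b2_co.X3.H3N.Fin
import Pool.Agent.Lib.MP_d439b2_co.X3.H3N.Dl
import Pool.Agent.Lib.MP_d439b2_co.X3.H3N.Za
import Pool.Agent.Lib.MP_d439b2_co.X3.H3N.NB
import Pool.Agent.Lib.MP_d439b2_co.X3.H3G.Final
import Pool.Agent.Lib.MP_d439b2_co.X3.KB

/-!
# MP_d439b2_co, X3/H3N: assembly (helper7)

`nOf : S_Be → S_N`: only the theorem on half graphs of a clique and a stable set (`S_Be`) is left as a hypothesis.
-/

set_option autoImplicit false

namespace Pool.Agent.MPd439b2.H3N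

open Pool.Agent.MPd439b2

/-- linked graphs without `K3:0,01,12` and `co(P_3 + 4 P_2)` have no large induced matchings, if they have no large half
graphs of a clique and a stable set -/
theorem nOf (hBe : S_Be) : S_N := pfN' pDl pZa X3.H3G.gmF X3.kb3 (nbF hBe)

end Pool.Agent.MPd439b2.H3N
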