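import Pool.Agent.Lib.MP_d439b2_co.X3.H3N.Defs
import Pool.Agent.Lib.MP_d439b2_co.Rep.Cut

/-!
# MP_d439b2_co, X3/H3N/CS: clean stable sets (helper7; note 2892 (D))

`CS G q I m`: the vertices `q i`, `i ∈ I`, are different and pairwise non-adjacent, and every vertex is complete to them
or adjacent to less than `m` of them; `20 m ≤ |I|`.

* `CS.avoid`: eight vertices which are not complete leave four elements of `q '' I` untouched.
* `CS.rank`: claim (1): the set of the vertices complete to `q '' I` has bounded rank.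
* `CS.clq`: a clique outside this set has bounded rank to the rest.
-/

set_option autoImplicit false

namespace Pool.Agent.MPd439b2.H3N

open Pool.Agent.MPd439b2 Pool.Agent.MPd439b2.Rep

/-- a clean stable set -/
structure CS {V : Type} (G : SimpleGraph V) (q : ℕ → V) (I : Finset ℕ) (m : ℕ) : Prop where
  inj : ∀ i ∈ I, ∀ j ∈ I, q i = q j → i = j
  st : ∀ i ∈ I, ∀ j ∈ I, ¬ G.Adj (q i) (q j)
  one : 1 ≤ m
  card : 20 * m ≤ I.card
  cl : ∀ v, (∀ i ∈ I, G.Adj v (q i)) ∨ {i | i ∈ I ∧ G.Adj v (q i)}.ncard < m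

/-- the vertices complete to the clean set -/
def Cm {V : Type} (G : SimpleGraph V) (q : ℕ → V) (I : Finset ℕ) : Set V := {v | ∀ i ∈ I, G.Adj v (q i)}

namespace CS

variable {V : Type} {G : SimpleGraph V} {q : ℕ → V} {I : Finset ℕ} {m : ℕ}

theorem avoid (h : CS G q I m) (B : Finset V) (hB : B.card ≤ 8) (hl : ∀ b ∈ B, b ∉ Cm G q I) :
    ∃ f : Fin 4 → ℕ, Function.Injective f ∧ ∀ t, f t ∈ I ∧
      ∀ b ∈ B, ¬ G.Adj b (q (f t)) ∧ q (f t) ≠ b := by
  classical
  let R : Finset ℕ := I.filter fun i => ∀ b ∈ B, ¬ G.Adj b (q i) ∧ q i ≠ b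
  have h1 : I ⊆ R ∪ (B.biUnion (fun b => I.filter fun i => G.Adj b (q i)) ∪
      B.biUnion (fun b => I.filter fun i => q i = b)) := by
    intro i hi
    by_cases hR : ∀ b ∈ B, ¬ G.Adj b (q i) ∧ q i ≠ b
    · exact Finset.mem_union_left _ (Finset.mem_filter.2 ⟨hi, hR⟩)
    · refine Finset.mem_union_right _ ?_
      push Not at hR
      obtain ⟨b, hb, hR⟩ := hR
      by_cases h2 : G.Adj b (q i)
      · exact Finset.mem_union_left _ (Finset.mem_biUnion.2 ⟨b, hb, Finset.mem_filter.2 ⟨hi, h2⟩⟩)
      · exact Finset.mem_union_right _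
          (Finset.mem_biUnion.2 ⟨b, hb, Finset.mem_filter.2 ⟨hi, hR h2⟩⟩)
  have h2 : (B.biUnion (fun b => I.filter fun i => G.Adj b (q i))).card ≤ B.card * m := by
    refine Finset.card_biUnion_le_card_mul _ _ _ fun b hb => ?_
    have h3 := (h.cl b).resolve_left (hl b hb)
    have h4 : {i | i ∈ I ∧ G.Adj b (q i)}.ncard = (I.filter fun i => G.Adj b (q i)).card := by
      rw [← Set.ncard_coe_finset]
      congr 1
      ext i
      simp
    omega
  have h3 : (B.biUnion (fun b => I.filter fun i => q i = b)).card ≤ B.card * 1 := by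
    refine Finset.card_biUnion_le_card_mul _ _ _ fun b hb => ?_
    rw [Finset.card_le_one]
    intro i hi j hj
    rw [Finset.mem_filter] at hi hj
    exact h.inj i hi.1 j hj.1 (hi.2.trans hj.2.symm)
  have h4 := Finset.card_le_card h1
  have h5 := Finset.card_union_le R (B.biUnion (fun b => I.filter fun i => G.Adj b (q i)) ∪
      B.biUnion (fun b => I.filter fun i => q i = b))
  have h6 := Finset.card_union_le (B.biUnion (fun b => I.filter fun i => G.Adj b (q i)))
      (B.biUnion (fun b => I.filter fun i => q i = b))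
  have h7 : B.card * m ≤ 8 * m := Nat.mul_le_mul_right _ hB
  have h8 := h.card
  have h9 := h.one
  have h10 : 4 ≤ R.card := by omega
  obtain ⟨R', hR', hc⟩ := Finset.exists_subset_card_eq h10
  refine ⟨fun t => R'.orderEmbOfFin hc t, (R'.orderEmbOfFin hc).injective, fun t => ?_⟩
  have h11 : R'.orderEmbOfFin hc t ∈ R := hR' (Finset.orderEmbOfFin_mem R' hc t)
  rw [Finset.mem_filter] at h11
  exact h11

theorem off (i : ℕ) (hi : i ∈ I) : q i ∉ Cm G q I := fun h => G.loopless.irrefl _ (h i hi)

/-- there are no large patterns between the vertices complete to the clean set and the others -/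
theorem no1 [Finite V] (hDl : S_Dl) (hGm : S_Gm) (h : CS G q I m) (hF : H3T.Fr3 G) (hP : H3.Prm G)
    (hS : H3.SPo G Set.univ) {a b : ℕ → V} {N : ℕ} (hN : 8 ≤ N) (ha : ∀ i < N, a i ∈ Cm G q I)
    (hb : ∀ i < N, b i ∈ (Cm G q I)ᶜ) :
    ¬ (TP G N false false false a b ∨ HP G N true true a b) := by
  classical
  have hBc : ((Finset.range 4).image b).card ≤ 8 :=
    (Finset.card_image_le).trans (by rw [Finset.card_range]; omega)
  obtain ⟨f, hf, hfI⟩ := h.avoid ((Finset.range 4).image b) hBc (by
    intro x hx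
    obtain ⟨i, hi, rfl⟩ := Finset.mem_image.1 hx
    exact hb i (by have := Finset.mem_range.1 hi; omega))
  have hfb : ∀ (t j : Fin 4), ¬ G.Adj (b j.val) (q (f t)) := fun t j =>
    ((hfI t).2 (b j.val) (Finset.mem_image.2 ⟨j.val, Finset.mem_range.2 j.2, rfl⟩)).1
  have hqi : Function.Injective fun t => q (f t) := fun s t hst =>
    hf (h.inj _ (hfI s).1 _ (hfI t).1 hst)
  rintro (hT | hH)
  · refine hGm V G hF hP hS (fun i => a i.val) (fun i => b i.val) (fun t => q (f t)) ?_ ?_ ?_ hqi
      ?_ ?_ (Or.inl fun s t => h.st _ (hfI s).1 _ (hfI t).1)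
    · intro i j hij
      by_cases e : i = j
      · subst e
        exact hij.ne rfl
      · exact absurd ((hT.aa i (by omega) j (by omega) fun e' => e (Fin.ext e')).1 hij)
          Bool.false_ne_true
    · intro i j hij
      by_cases e : i = j
      · subst e
        exact hij.ne rfl
      · exact absurd ((hT.bb i (by omega) j (by omega) fun e' => e (Fin.ext e')).1 hij)
          Bool.false_ne_true
    · intro i j
      rw [hT.ab i (by omega) j (by omega), Fin.ext_iff]
      simp
    · intro i j
      exact (ha j (by omega) _ (hfI i).1).symm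
    · intro i j hij
      exact hfb i j hij.symm
  · refine hDl V G hF hP (fun i => a i.val) (fun i => b i.val) (q (f 0)) (q (f 1)) ?_ ?_ ?_ ?_ ?_
      ?_ ?_
    · intro i j e
      exact (hH.aa i (by omega) j (by omega) fun e' => e (Fin.ext e')).2 rfl
    · intro i j e
      exact (hH.bb i (by omega) j (by omega) fun e' => e (Fin.ext e')).2 rfl
    · intro i j
      exact hH.ab i (by omega) j (by omega)
    · exact fun e => absurd (hqi e) (by decide)
    · exact h.st _ (hfI 0).1 _ (hfI 1).1
    · intro i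
      exact ⟨(ha i (by omega) _ (hfI 0).1).symm, (ha i (by omega) _ (hfI 1).1).symm⟩
    · intro j
      exact ⟨fun e => hfb 0 j e.symm, fun e => hfb 1 j e.symm⟩

/-- there are no large patterns at a clique outside the set of the vertices complete to the clean set -/
theorem no2 [Finite V] (hZa : S_Za) (h : CS G q I m) (hF : H3T.Fr3 G) (hP : H3.Prm G)
    {K : Set V} (hK : ∀ x ∈ K, ∀ y ∈ K, x ≠ y → G.Adj x y) (hKC : K ⊆ (Cm G q I)ᶜ)
    {a b : ℕ → V} {N : ℕ} (hN : 8 ≤ N) (ha : ∀ i < N, a i ∈ K)
    (hb : ∀ i < N, b i ∈ (Cm G q I)ᶜ \ K) :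
    ¬ (TP G N false false false a b ∨ HP G N true true a b) := by
  classical
  rintro (hT | hH)
  · have h0 := hT.ia 0 (by omega) 1 (by omega) (by omega)
    have h1 := hK _ (ha 0 (by omega)) _ (ha 1 (by omega)) h0
    exact absurd ((hT.aa 0 (by omega) 1 (by omega) (by omega)).1 h1) Bool.false_ne_true
  · have hBc : ((Finset.range 4).image a ∪ (Finset.range 4).image b).card ≤ 8 := by
      refine (Finset.card_union_le _ _).trans ?_
      have h1 := Finset.card_image_le (s := Finset.range 4) (f := a)
      have h2 := Finset.card_image_le (s := Finset.range 4) (f := b)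
      rw [Finset.card_range] at h1 h2
      omega
    obtain ⟨f, hf, hfI⟩ := h.avoid ((Finset.range 4).image a ∪ (Finset.range 4).image b) hBc (by
      intro x hx
      rcases Finset.mem_union.1 hx with hx | hx
      · obtain ⟨i, hi, rfl⟩ := Finset.mem_image.1 hx
        exact hKC (ha i (by have := Finset.mem_range.1 hi; omega))
      · obtain ⟨i, hi, rfl⟩ := Finset.mem_image.1 hx
        exact (hb i (by have := Finset.mem_range.1 hi; omega)).1)
    obtain ⟨i, hi⟩ := hZa V G hF hP (fun i => a i.val) (fun i => b i.val)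
      (fun i j e => (hH.aa i (by omega) j (by omega) fun e' => e (Fin.ext e')).2 rfl)
      (fun i j e => (hH.bb i (by omega) j (by omega) fun e' => e (Fin.ext e')).2 rfl)
      (fun i j => hH.dis i (by omega) j (by omega))
      (fun i j => hH.ab i (by omega) j (by omega)) (q (f 0))
    have h1 := (hfI 0).2 (a i.val) (Finset.mem_union_left _
      (Finset.mem_image.2 ⟨i.val, Finset.mem_range.2 i.2, rfl⟩))
    have h2 := (hfI 0).2 (b i.val) (Finset.mem_union_right _
      (Finset.mem_image.2 ⟨i.val, Finset.mem_range.2 i.2, rfl⟩))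
    rcases hi with hi | hi | hi | hi
    · exact h1.2 hi
    · exact h2.2 hi
    · exact h1.1 hi.symm
    · exact h2.1 hi.symm

end CS

end Pool.Agent.MPd439b2.H3N
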