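import Pool.Agent.Lib.MP_d439b2_co.X3.H3N.Defs

/-!
# MP_d439b2_co, X3/H3N/Cl: the cleaning lemma (helper7)
-/

set_option autoImplicit false

namespace Pool.Agent.MPd439b2.H3N

/-- one step of the cleaning, and the induction -/
theorem clAux {K : ℕ} (hK : 1 ≤ K) (L : ℕ) (W : Type) (ρ : W → ℕ → Prop) : ∀ (T : ℕ) (I : Finset ℕ),
    K ^ (T + 1) * L ≤ I.card →
    (∃ m : ℕ, ∃ I' ⊆ I, L ≤ m ∧ K * m ≤ I'.card ∧
      ∀ w, (∀ i ∈ I', ρ w i) ∨ {i | i ∈ I' ∧ ρ w i}.ncard < m) ∨
    ∃ (w : ℕ → W) (i : ℕ → ℕ), (∀ a < T, i a ∈ I ∧ ¬ ρ (w a) (i a)) ∧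
      ∀ a b, a < b → b < T → ρ (w a) (i b) := by
  classical
  intro T
  induction T with
  | zero =>
    intro I hI
    by_cases hW : Nonempty W
    · exact Or.inr ⟨fun _ => hW.some, fun _ => 0, fun a ha => absurd ha (Nat.not_lt_zero _),
        fun a b _ hb => absurd hb (Nat.not_lt_zero _)⟩
    · refine Or.inl ⟨L, I, Finset.Subset.refl _, le_rfl, ?_, fun w => (hW ⟨w⟩).elim⟩
      simpa using hI
  | succ T ih =>
    intro I hI
    have h1 : K ^ (T + 1) * L ≤ I.card / K := by
      rw [Nat.le_div_iff_mul_le (by omega)]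
      calc K ^ (T + 1) * L * K = K ^ (T + 1 + 1) * L := by ring
        _ ≤ I.card := hI
    have h2 : L ≤ K ^ (T + 1) * L := Nat.le_mul_of_pos_left _ (Nat.pow_pos (by omega))
    by_cases hg : ∀ w, (∀ i ∈ I, ρ w i) ∨ {i | i ∈ I ∧ ρ w i}.ncard < I.card / K
    · exact Or.inl ⟨I.card / K, I, Finset.Subset.refl _, h2.trans h1, Nat.mul_div_le _ _, hg⟩
    · push Not at hg
      obtain ⟨w, ⟨i₀, hi₀, hw₀⟩, hw⟩ := hg
      have h3 : {i | i ∈ I ∧ ρ w i}.ncard = (I.filter fun i => ρ w i).card := by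
        rw [← Set.ncard_coe_finset]
        congr 1
        ext i
        simp
      rw [h3] at hw
      rcases ih (I.filter fun i => ρ w i) (h1.trans hw) with h | h
      · obtain ⟨m, I', hI', hm⟩ := h
        exact Or.inl ⟨m, I', hI'.trans (Finset.filter_subset _ _), hm⟩
      · obtain ⟨w', i', ha, hb⟩ := h
        refine Or.inr ⟨fun a => if a = 0 then w else w' (a - 1),
          fun a => if a = 0 then i₀ else i' (a - 1), ?_, ?_⟩
        · intro a haT
          by_cases h0 : a = 0
          · simp only [h0, if_true]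
            exact ⟨hi₀, hw₀⟩
          · simp only [h0, if_false]
            obtain ⟨h4, h5⟩ := ha (a - 1) (by omega)
            exact ⟨(Finset.mem_filter.1 h4).1, h5⟩
        · intro a b hab hbT
          have hb0 : b ≠ 0 := by omega
          simp only [hb0, if_false]
          by_cases h0 : a = 0
          · simp only [h0, if_true]
            exact (Finset.mem_filter.1 (ha (b - 1) (by omega)).1).2
          · simp only [h0, if_false]
            exact hb (a - 1) (b - 1) (by omega) (by omega)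

/-- the cleaning lemma -/
theorem pfCl : S_Cl := by
  intro T K L
  classical
  rcases Nat.eq_zero_or_pos K with hK | hK
  · refine ⟨0, fun W ρ I _ _ => ⟨max L (I.card + 1), I, Finset.Subset.refl _, le_max_left _ _, ?_,
      fun w => Or.inr ?_⟩⟩
    · rw [hK, Nat.zero_mul]
      exact Nat.zero_le _
    · have h1 : {i | i ∈ I ∧ ρ w i}.ncard ≤ I.card := by
        rw [← Set.ncard_coe_finset]
        exact Set.ncard_le_ncard (fun i hi => hi.1) (Finset.finite_toSet I)
      exact lt_of_le_of_lt h1 (lt_of_lt_of_le (Nat.lt_succ_self _) (le_max_right _ _))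
  · exact ⟨K ^ (T + 1) * L, fun W ρ I hI hno => (clAux hK L W ρ T I hI).resolve_right hno⟩

end Pool.Agent.MPd439b2.H3N
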