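import Pool.Agent.Lib.MP_d439b2_co.X3.H3N.Defs

/-!
# MP_d439b2_co, X3/H3N/LD: layouts and deleted vertices (helper7)
-/

set_option autoImplicit false

namespace Pool.Agent.MPd439b2.H3N

open Pool.Agent.MPd439b2

variable {V : Type} [Finite V]

theorem types_del (G : SimpleGraph V) (F : Set V) {A : Set ↥(Fᶜ : Set V)} {k : ℕ}
    (h : (Types (G.induce Fᶜ) A).encard ≤ k) :
    (Types G (Subtype.val '' A)).encard ≤ ((k + 1) * 2 ^ F.ncard : ℕ) := by
  classical
  let Φ : Set V → Set ↥(Fᶜ : Set V) × Set V := fun T => (Subtype.val ⁻¹' T, T ∩ F)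
  have hΦ : Function.Injective Φ := by
    intro T T' hT
    have h1 : (Subtype.val ⁻¹' T : Set ↥(Fᶜ : Set V)) = Subtype.val ⁻¹' T' := congrArg Prod.fst hT
    have h2 : T ∩ F = T' ∩ F := congrArg Prod.snd hT
    ext x
    by_cases hx : x ∈ F
    · have h3 : x ∈ T ∩ F ↔ x ∈ T' ∩ F := by rw [h2]
      exact ⟨fun h4 => (h3.1 ⟨h4, hx⟩).1, fun h4 => (h3.2 ⟨h4, hx⟩).1⟩
    · have h3 : (⟨x, hx⟩ : ↥(Fᶜ : Set V)) ∈ (Subtype.val ⁻¹' T : Set ↥(Fᶜ : Set V)) ↔
          (⟨x, hx⟩ : ↥(Fᶜ : Set V)) ∈ (Subtype.val ⁻¹' T' : Set ↥(Fᶜ : Set V)) := by rw [h1]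
      exact h3
  have h1 : Φ '' Types G (Subtype.val '' A) ⊆ (insert ∅ (Types (G.induce Fᶜ) A)) ×ˢ (𝒫 F) := by
    rintro _ ⟨T, ⟨hT, a, ⟨a', ha', rfl⟩, rfl⟩, rfl⟩
    refine ⟨?_, fun x hx => hx.2⟩
    have e : (Subtype.val ⁻¹' (G.neighborSet a'.val \ (Subtype.val '' A)) : Set ↥(Fᶜ : Set V)) =
        (G.induce Fᶜ).neighborSet a' \ A := by
      ext v
      constructor
      · rintro ⟨h3, h4⟩
        exact ⟨h3, fun h5 => h4 ⟨v, h5, rfl⟩⟩
      · rintro ⟨h3, h4⟩
        refine ⟨h3, ?_⟩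
        rintro ⟨w, hw, he⟩
        exact h4 (by rwa [← Subtype.ext he])
    show (Subtype.val ⁻¹' (G.neighborSet a'.val \ (Subtype.val '' A)) : Set ↥(Fᶜ : Set V)) ∈ _
    rw [e]
    rcases Set.eq_empty_or_nonempty ((G.induce Fᶜ).neighborSet a' \ A) with h3 | h3
    · exact Or.inl h3
    · exact Or.inr ⟨h3, a', ha', rfl⟩
  have hk : (Types (G.induce Fᶜ) A).ncard ≤ k := by
    have h3 := (Set.toFinite (Types (G.induce Fᶜ) A)).cast_ncard_eq
    rw [← h3] at h
    exact_mod_cast h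
  have h2 : (Types G (Subtype.val '' A)).ncard ≤ (k + 1) * 2 ^ F.ncard := by
    rw [← Set.ncard_image_of_injective _ hΦ]
    refine (Set.ncard_le_ncard h1 (Set.toFinite _)).trans ?_
    rw [Set.ncard_prod, Set.ncard_powerset]
    exact Nat.mul_le_mul_right _ ((Set.ncard_insert_le _ _).trans (Nat.succ_le_succ hk))
  rw [← (Set.toFinite (Types G (Subtype.val '' A))).cast_ncard_eq]
  exact_mod_cast h2

theorem lay_val (G : SimpleGraph V) (F : Set V) {A : Set ↥(Fᶜ : Set V)} {k : ℕ}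
    (h : Lay (G.induce Fᶜ) k A) : Lay G ((k + 1) * 2 ^ F.ncard) (Subtype.val '' A) := by
  induction h with
  | empty =>
    rw [Set.image_empty]
    exact Lay.empty
  | single v hv =>
    have := types_del G F hv
    rw [Set.image_singleton] at this ⊢
    exact Lay.single _ this
  | union _ _ hd hc ih1 ih2 =>
    have := types_del G F hc
    rw [Set.image_union] at this ⊢
    exact Lay.union ih1 ih2 (Set.disjoint_image_of_injective Subtype.val_injective hd) this

/-- a layout of the graph without `F` gives a layout of the graph -/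
theorem lay_del (G : SimpleGraph V) (F : Set V) {k : ℕ} (h : Lay (G.induce Fᶜ) k Set.univ) :
    Lay G ((k + 1) * 2 ^ F.ncard) Set.univ := by
  classical
  have hpos : 2 ^ F.ncard ≤ (k + 1) * 2 ^ F.ncard := Nat.le_mul_of_pos_left _ (Nat.succ_pos k)
  have h1 : 1 ≤ 2 ^ F.ncard := Nat.one_le_two_pow
  have key : ∀ s : Finset V, (↑s : Set V) ⊆ F → Lay G ((k + 1) * 2 ^ F.ncard) (Fᶜ ∪ ↑s) := by
    intro s
    induction s using Finset.induction_on with
    | empty =>
      intro _
      have h2 := lay_val G F h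
      rw [Set.image_univ, Subtype.range_coe] at h2
      simpa using h2
    | insert v s hv ih =>
      intro hs
      rw [Finset.coe_insert] at hs ⊢
      have h2 := ih ((Set.subset_insert _ _).trans hs)
      have h3 : Fᶜ ∪ insert v (↑s : Set V) = insert v (Fᶜ ∪ ↑s) := by
        rw [Set.union_insert]
      rw [h3]
      refine Lay.insert (h1.trans hpos) h2 ?_ ?_
      · rintro (h4 | h4)
        · exact h4 (hs (Set.mem_insert _ _))
        · exact hv (Finset.mem_coe.1 h4)
      · have h5 : (nb G (insert v (Fᶜ ∪ ↑s))).ncard ≤ F.ncard := by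
          refine Set.ncard_le_ncard (fun x hx => ?_) (Set.toFinite _)
          by_contra hxF
          exact hx.1 (Or.inr (Or.inl hxF))
        refine (types_encard_le h5).trans ?_
        have h6 : 2 ^ F.ncard - 1 ≤ (k + 1) * 2 ^ F.ncard := by omega
        exact_mod_cast h6
  have h2 := key (Set.toFinite F).toFinset (by rw [Set.Finite.coe_toFinset])
  rw [Set.Finite.coe_toFinset, Set.compl_union_self] at h2
  exact h2

end Pool.Agent.MPd439b2.H3N
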