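import Pool.Agent.Lib.MP_d439b2_co.X3.H3N.Pt
import Pool.Agent.Lib.MP_d439b2_co.X3.H3N.Cl
import Pool.Agent.Lib.MP_d439b2_co.X3.H3N.LD
import Pool.Agent.Lib.MP_d439b2_co.X3.H3N.CS
import Pool.Agent.Lib.MP_d439b2_co.X3.H3T.LB
import Pool.Agent.Lib.MP_d439b2_co.H3.Pr
import Pool.Agent.Lib.MP_d439b2_co.A0.Rs
import Pool.Agent.Lib.MP_d439b2_co.L4.A1
import Pool.Agent.Lib.MP_d439b2_co.Rep.RowX4

/-!
# MP_d439b2_co, X3/H3N/Fin: linked graphs have no large stable sets (helper7; note 2892 (D))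

`pfAl`: in the linked graphs of the class there are no large stable sets; `pfN : S_N`.
-/

set_option autoImplicit false

namespace Pool.Agent.MPd439b2.H3N

open Pool.Agent.MPd439b2 Pool.Agent.MPd439b2.Rep

theorem kf : F9.KF 3 3 ![{0}, {0, 1}, {1, 2}] = KA 3 3 ![{0}, {0, 1}, {1, 2}] := by
  unfold F9.KF
  congr 1
  funext q
  fin_cases q <;> simp

/-- the number of vertices -/
theorem card_of_seq {V : Type} [Finite V] {n : ℕ} (q : ℕ → V)
    (h : ∀ i < n, ∀ j < n, q i = q j → i = j) : n ≤ Nat.card V := by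
  have h1 : Function.Injective fun i : Fin n => q i.val := fun i j hij =>
    Fin.ext (h i.val i.2 j.val j.2 hij)
  simpa using Nat.card_le_card_of_injective _ h1

section main

variable {V : Type} [Finite V] {G : SimpleGraph V}

/-- claim (1) -/
theorem cm_small (hDl : S_Dl) (hGm : S_Gm) {N M c₁ : ℕ} (hN : 8 ≤ N)
    (hM : ∀ A B : Set V, Disjoint A B → Has3 G A B M → ∃ a b : ℕ → V, (∀ i < N, a i ∈ A) ∧
      (∀ i < N, b i ∈ B) ∧ (TP G N false false false a b ∨ HP G N true true a b))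
    (hc₁ : ∀ A B : Set V, ¬ Has3 G A B M → LK.rk G A B ≤ c₁) {β : ℕ → ℕ} {c₀ : ℕ} (hc : c₁ ≤ c₀)
    (hL : Link β c₀ G) (hF : H3T.Fr3 G) (hP : H3.Prm G) (hS : H3.SPo G Set.univ) {q : ℕ → V}
    {I : Finset ℕ} {m : ℕ} (h : CS G q I m) (hm : β c₁ < m) : (Cm G q I).ncard ≤ β c₁ := by
  classical
  have h1 : ¬ Has3 G (Cm G q I) (Cm G q I)ᶜ M := by
    intro h2
    obtain ⟨a, b, ha, hb, hab⟩ := hM _ _ disjoint_compl_right h2
    exact h.no1 hDl hGm hF hP hS hN ha hb hab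
  have h2 : LK.cr G (Cm G q I) ≤ c₁ := hc₁ _ _ h1
  rcases hL c₁ hc _ h2 with h3 | h3
  · exact h3
  · exfalso
    have h4 : ((I.image q : Finset V) : Set V) ⊆ (Cm G q I)ᶜ := by
      intro x hx
      obtain ⟨i, hi, rfl⟩ := Finset.mem_image.1 (Finset.mem_coe.1 hx)
      exact CS.off i hi
    have h5 := Set.ncard_le_ncard h4 (Set.toFinite _)
    rw [Set.ncard_coe_finset, Finset.card_image_of_injOn fun i hi j hj hij => h.inj i hi j hj hij]
      at h5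
    have h6 := h.card
    omega

/-- cliques outside the common neighbourhood of a clean stable set are small -/
theorem clq_small (hZa : S_Za) {N M c₁ : ℕ} (hN : 8 ≤ N)
    (hM : ∀ A B : Set V, Disjoint A B → Has3 G A B M → ∃ a b : ℕ → V, (∀ i < N, a i ∈ A) ∧
      (∀ i < N, b i ∈ B) ∧ (TP G N false false false a b ∨ HP G N true true a b))
    (hc₁ : ∀ A B : Set V, ¬ Has3 G A B M → LK.rk G A B ≤ c₁) {β : ℕ → ℕ} {c₀ c₂ : ℕ} (hc : c₂ ≤ c₀)
    (hL : Link β c₀ G) (hF : H3T.Fr3 G) (hP : H3.Prm G) {q : ℕ → V}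
    {I : Finset ℕ} {m : ℕ} (h : CS G q I m) (hm : β c₂ + 1 < m)
    (hB : c₁ + (Cm G q I).ncard ≤ c₂) {K : Set V} (hK : ∀ x ∈ K, ∀ y ∈ K, x ≠ y → G.Adj x y)
    (hKC : K ⊆ (Cm G q I)ᶜ) : K.ncard ≤ β c₂ := by
  classical
  have h1 : ¬ Has3 G K ((Cm G q I)ᶜ \ K) M := by
    intro h2
    obtain ⟨a, b, ha, hb, hab⟩ := hM _ _ disjoint_sdiff_self_right h2
    exact h.no2 hZa hF hP hK hKC hN ha hb hab
  have h2 : LK.rk G K ((Cm G q I)ᶜ \ K) ≤ c₁ := hc₁ _ _ h1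
  have h3 : LK.cr G K ≤ c₂ := by
    have h4 : Kᶜ ⊆ ((Cm G q I)ᶜ \ K) ∪ Cm G q I := by
      intro x hx
      by_cases h5 : x ∈ Cm G q I
      · exact Or.inr h5
      · exact Or.inl ⟨h5, hx⟩
    have h5 := rk_mono G (Set.Subset.refl K) h4
    have h6 := rk_union_right G K ((Cm G q I)ᶜ \ K) (Cm G q I)
    have h7 := rk_card_right G K (Cm G q I)
    have h8 : LK.cr G K = LK.rk G K Kᶜ := rfl
    omega
  rcases hL c₂ hc _ h3 with h4 | h4
  · exact h4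
  · exfalso
    have h5 : ((I.image q : Finset V) : Set V) ⊆ Kᶜ ∪ (K ∩ ((I.image q : Finset V) : Set V)) := by
      intro x hx
      by_cases h6 : x ∈ K
      · exact Or.inr ⟨h6, hx⟩
      · exact Or.inl h6
    have h6 : (K ∩ ((I.image q : Finset V) : Set V)).ncard ≤ 1 := by
      rw [Set.ncard_le_one (Set.toFinite _)]
      rintro x ⟨hx, hx'⟩ y ⟨hy, hy'⟩
      obtain ⟨i, hi, rfl⟩ := Finset.mem_image.1 (Finset.mem_coe.1 hx')
      obtain ⟨j, hj, rfl⟩ := Finset.mem_image.1 (Finset.mem_coe.1 hy')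
      by_contra hne
      exact h.st i hi j hj (hK _ hx _ hy hne)
    have h7 := Set.ncard_le_ncard h5 (Set.toFinite _)
    have h8 := Set.ncard_union_le Kᶜ (K ∩ ((I.image q : Finset V) : Set V))
    rw [Set.ncard_coe_finset, Finset.card_image_of_injOn fun i hi j hj hij => h.inj i hi j hj hij]
      at h7
    have h9 := h.card
    omega

end main

/-- **no large stable sets** in the linked graphs of the class -/
theorem pfAl (hDl : S_Dl) (hZa : S_Za) (hGm : S_Gm) (hCl : S_Cl) (hKB : S_KB) (hNB : S_NB)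
    (hPt : S_Pt) (hCh : S_Ch) (hLB : H3T.S_LB) : ∀ m : ℕ, 1 ≤ m → ∀ β : ℕ → ℕ, ∃ c₀ n : ℕ,
    ∀ (V : Type) [Finite V] (G : SimpleGraph V),
    Rep.Fr (F9.KF 3 3 ![{0}, {0, 1}, {1, 2}]) J4 G → NoT {(true, false, false)} m G → Link β c₀ G →
      H3.SPo G Set.univ → H3.NoU G → ¬ ∃ q : ℕ → V, (∀ i < n, ∀ j < n, q i = q j → i = j) ∧
        ∀ i < n, ∀ j < n, ¬ G.Adj (q i) (q j) := by
  classical
  intro m hm β
  obtain ⟨c', N₀, hN₀⟩ := hNB m hm β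
  obtain ⟨M, hM⟩ := hPt (max N₀ 8)
  obtain ⟨c₁, hc₁⟩ := rk3 M
  obtain ⟨T, hT⟩ := hCh (max N₀ 8)
  obtain ⟨N₂, hN₂⟩ := hCl T 20 (β c₁ + β (c₁ + β c₁) + 2)
  obtain ⟨M₂, hM₂⟩ := A0.aRs W.ramC (β (c₁ + β c₁) + 1) N₂
  obtain ⟨k, hk⟩ := hKB (max M₂ (β c₁ + 1))
  refine ⟨max c' (max (c₁ + β c₁) ((k + 1) * 2 ^ β c₁)),
    max N₂ (3 * β ((k + 1) * 2 ^ β c₁) + 4), ?_⟩
  intro V _ G hF hNo hL hS hU
  rintro ⟨q, hq1, hq2⟩
  have hF3 : H3T.Fr3 G := by
    unfold H3T.Fr3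
    rw [← kf]
    exact hF.1
  have hcard := card_of_seq q hq1
  have hP : H3.Prm G := (H3.pfPr V G).1 hS (by omega) hU
  have hNBG : NB G (max N₀ 8) :=
    (hN₀ V G hF hNo (link_mono (le_max_left _ _) hL) hS hU).mono (le_max_left _ _)
  have hMG := hM V G hNBG
  have hc₁G := hc₁ V G
  -- cleaning
  have hclean : ∀ q' : ℕ → V, (∀ i < N₂, ∀ j < N₂, q' i = q' j → i = j) →
      (∀ i < N₂, ∀ j < N₂, ¬ G.Adj (q' i) (q' j)) → ∃ I ⊆ Finset.range N₂, ∃ m',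
        β c₁ + β (c₁ + β c₁) + 2 ≤ m' ∧ CS G q' I m' := by
    intro q' h1 h2
    obtain ⟨m', I, hI, h3, h4, h5⟩ := hN₂ V (fun v i => G.Adj v (q' i)) (Finset.range N₂)
      (by rw [Finset.card_range]) (by
        rintro ⟨w, i, h6, h7⟩
        refine hT V G hNBG q' (↑(Finset.range N₂) : Set ℕ) ?_ ⟨w, i, fun a ha =>
          ⟨Finset.mem_coe.2 (h6 a ha).1, (h6 a ha).2⟩, h7⟩
        intro i hi j hj
        exact h2 i (Finset.mem_range.1 (Finset.mem_coe.1 hi)) j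
          (Finset.mem_range.1 (Finset.mem_coe.1 hj)))
    refine ⟨I, hI, m', h3, ⟨?_, ?_, by omega, h4, h5⟩⟩
    · exact fun i hi j hj => h1 i (Finset.mem_range.1 (hI hi)) j (Finset.mem_range.1 (hI hj))
    · exact fun i hi j hj => h2 i (Finset.mem_range.1 (hI hi)) j (Finset.mem_range.1 (hI hj))
  have hcm : ∀ {q' : ℕ → V} {I : Finset ℕ} {m' : ℕ}, β c₁ + β (c₁ + β c₁) + 2 ≤ m' →
      CS G q' I m' → (Cm G q' I).ncard ≤ β c₁ := fun hm' h =>
    cm_small hDl hGm (le_max_right _ _) hMG hc₁G (by omega) hL hF3 hP hS h (by omega)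
  obtain ⟨I, hI, m', hm', hCS⟩ := hclean q
    (fun i hi j hj => hq1 i (lt_of_lt_of_le hi (le_max_left _ _)) j
      (lt_of_lt_of_le hj (le_max_left _ _)))
    (fun i hi j hj => hq2 i (lt_of_lt_of_le hi (le_max_left _ _)) j
      (lt_of_lt_of_le hj (le_max_left _ _)))
  have hFc := hcm hm' hCS
  have hclq : ∀ K : Set V, (∀ x ∈ K, ∀ y ∈ K, x ≠ y → G.Adj x y) → K ⊆ (Cm G q I)ᶜ →
      K.ncard ≤ β (c₁ + β c₁) := fun K hK hKC =>
    clq_small hZa (le_max_right _ _) hMG hc₁G (by omega) hL hF3 hP hCS (by omega)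
      (Nat.add_le_add_left hFc _) hK hKC
  have hcf : (G.induce (Cm G q I)ᶜ).CliqueFree (β (c₁ + β c₁) + 1) := by
    intro t ht
    rw [SimpleGraph.isNClique_iff] at ht
    have h1 := hclq (Subtype.val '' (↑t : Set ↥((Cm G q I)ᶜ : Set V))) (by
      rintro _ ⟨x, hx, rfl⟩ _ ⟨y, hy, rfl⟩ hxy
      exact ht.1 hx hy fun e => hxy (congrArg Subtype.val e)) (by
      rintro _ ⟨x, -, rfl⟩
      exact x.2)
    rw [Set.ncard_image_of_injective _ Subtype.val_injective, Set.ncard_coe_finset, ht.2] at h1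
    omega
  have hno : ¬ ∃ Q₁ Q₂ : Set ↥((Cm G q I)ᶜ : Set V), Disjoint Q₁ Q₂ ∧
      max M₂ (β c₁ + 1) ≤ Q₁.ncard ∧ max M₂ (β c₁ + 1) ≤ Q₂.ncard ∧
        ∀ a ∈ Q₁, ∀ b ∈ Q₂, (G.induce (Cm G q I)ᶜ).Adj a b := by
    rintro ⟨Q₁, Q₂, -, h1, h2, h3⟩
    obtain ⟨Q, hQ, hQs, hQc⟩ := hM₂ _ _ hcf Q₁ ((le_max_left _ _).trans h1)
    have hne : Q₂.Nonempty := by
      rw [← Set.ncard_pos (Set.toFinite _)]
      have := le_max_right M₂ (β c₁ + 1)
      omega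
    obtain ⟨f, hf1, hf2⟩ := A0.aRsAux.enum Q N₂ hQc hne.some
    obtain ⟨I', hI', m'', hm'', hCS'⟩ := hclean (fun i => (f i).val)
      (fun i hi j hj hij => hf2 i hi j hj (Subtype.ext hij))
      (fun i hi j hj => hQs _ (hf1 i hi) _ (hf1 j hj))
    have h4 := hcm hm'' hCS'
    have h5 : Subtype.val '' Q₂ ⊆ Cm G (fun i => (f i).val) I' := by
      rintro _ ⟨y, hy, rfl⟩ i hi
      exact (h3 (f i) (hQ (hf1 i (Finset.mem_range.1 (hI' hi)))) y hy).symm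
    have h6 := Set.ncard_le_ncard h5 (Set.toFinite _)
    rw [Set.ncard_image_of_injective _ Subtype.val_injective] at h6
    have := le_max_right M₂ (β c₁ + 1)
    omega
  have hF3' : H3T.Fr3 (G.induce (Cm G q I)ᶜ) := by
    unfold H3T.Fr3
    rw [← kf]
    exact (fr_induce _ hF).1
  have hlay := lay_del G (Cm G q I) (hk _ _ hF3' hno)
  have hlay' : Lay G ((k + 1) * 2 ^ β c₁) Set.univ :=
    hlay.mono (Nat.mul_le_mul_left _ (Nat.pow_le_pow_right (by omega) hFc))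
  have hfin := hLB V G β _ _ ((le_max_right _ _).trans (le_max_right _ _)) hL hlay'
  have := le_max_right N₂ (3 * β ((k + 1) * 2 ^ β c₁) + 4)
  omega

/-- **the final theorem** -/
theorem pfN (hDl : S_Dl) (hZa : S_Za) (hGm : S_Gm) (hCl : S_Cl) (hKB : S_KB) (hNB : S_NB)
    (hPt : S_Pt) (hCh : S_Ch) (hLB : H3T.S_LB) : S_N := by
  intro m hm β
  obtain ⟨c₀, n, hn⟩ := pfAl hDl hZa hGm hCl hKB hNB hPt hCh hLB m hm β
  refine ⟨c₀, n, fun V _ G hF hT hL hS hU a b hab => hn V G hF hT hL hS hU ⟨a, ?_, ?_⟩⟩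
  · intro i hi j hj hij
    by_contra hne
    exact hab.ia i hi j hj hne hij
  · intro i hi j hj hij
    by_cases e : i = j
    · subst e
      exact hij.ne rfl
    · exact absurd ((hab.aa i hi j hj e).1 hij) Bool.false_ne_true

/-- the final theorem, with the finished parts inserted -/
theorem pfN' (hDl : S_Dl) (hZa : S_Za) (hGm : S_Gm) (hKB : S_KB) (hNB : S_NB) : S_N :=
  pfN hDl hZa hGm pfCl hKB hNB ptF chF (H3T.pfLB LK.a1)

end Pool.Agent.MPd439b2.H3N
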