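import Pool.Agent.Lib.MP_d439b2_co.X3.H3N.Defs
import Pool.Agent.Lib.MP_d439b2_co.Rep.Pat3

/-!
# MP_d439b2_co, X3/H3N/Pt: typed patterns (helper70)

`ptF : S_Pt`: if there are no other typed patterns of size `N` than induced matchings and half graphs of two cliques, then a
large pattern between `A` and `B` contains one of the two.  `chF : S_Ch`: there are no long chains at a stable set.
-/

set_option autoImplicit false

namespace Pool.Agent.MPd439b2.H3N

open Pool.Agent.MPd439b2 Pool.Agent.MPd439b2.Rep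

/-- **Pt.** -/
def S_Pt : Prop := ∀ N : ℕ, ∃ M : ℕ, ∀ (V : Type) (G : SimpleGraph V), NB G N →
  ∀ A B : Set V, Disjoint A B → Has3 G A B M → ∃ a b : ℕ → V, (∀ i < N, a i ∈ A) ∧
    (∀ i < N, b i ∈ B) ∧ (TP G N false false false a b ∨ HP G N true true a b)

/-- **Ch.** -/
def S_Ch : Prop := ∀ N : ℕ, ∃ T : ℕ, ∀ (V : Type) (G : SimpleGraph V), NB G N →
  ∀ (q : ℕ → V) (I : Set ℕ), (∀ i ∈ I, ∀ j ∈ I, ¬ G.Adj (q i) (q j)) →
    ¬ ∃ (w : ℕ → V) (i : ℕ → ℕ), (∀ a < T, i a ∈ I ∧ ¬ G.Adj (w a) (q (i a))) ∧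
      ∀ a b, a < b → b < T → G.Adj (w a) (q (i b))

theorem HP.mono {V : Type} {G : SimpleGraph V} {m m' : ℕ} {s t : Bool} {a b : ℕ → V} (hm : m' ≤ m)
    (h : HP G m s t a b) : HP G m' s t a b where
  dis i hi j hj := h.dis i (hi.trans_le hm) j (hj.trans_le hm)
  ia i hi j hj := h.ia i (hi.trans_le hm) j (hj.trans_le hm)
  ib i hi j hj := h.ib i (hi.trans_le hm) j (hj.trans_le hm)
  aa i hi j hj := h.aa i (hi.trans_le hm) j (hj.trans_le hm)
  bb i hi j hj := h.bb i (hi.trans_le hm) j (hj.trans_le hm)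
  ab i hi j hj := h.ab i (hi.trans_le hm) j (hj.trans_le hm)

theorem NB.mono {V : Type} {G : SimpleGraph V} {N N' : ℕ} (hN : N ≤ N') (h : NB G N) : NB G N' where
  tp s t e hs := (h.tp s t e hs).mono hN
  hf s t hs a b hab := h.hf s t hs a b (hab.mono hN)

/-- a half graph with the two sides exchanged -/
theorem HP.rev {V : Type} {G : SimpleGraph V} {n : ℕ} {s t : Bool} {a b : ℕ → V}
    (h : HP G n s t a b) : HP G n t s (fun k => b (n - 1 - k)) (fun k => a (n - 1 - k)) where
  dis i hi j hj := (h.dis _ (by omega) _ (by omega)).symm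
  ia i hi j hj hij := h.ib _ (by omega) _ (by omega) (by omega)
  ib i hi j hj hij := h.ia _ (by omega) _ (by omega) (by omega)
  aa i hi j hj hij := h.bb _ (by omega) _ (by omega) (by omega)
  bb i hi j hj hij := h.aa _ (by omega) _ (by omega) (by omega)
  ab i hi j hj := by
    rw [SimpleGraph.adj_comm, h.ab _ (by omega) _ (by omega)]
    omega

theorem ptF : S_Pt := by
  intro N
  obtain ⟨M, hM⟩ := W.ramC (Bool × Bool) (N + 2)
  refine ⟨M, fun V G hNB A B hAB hP => ?_⟩
  classical
  obtain ⟨a, b, hab⟩ := hP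
  obtain ⟨σ, c, h1, h2, h3⟩ := hM fun i j => (decide (G.Adj (a i) (a j)), decide (G.Adj (b i) (b j)))
  have haa : ∀ k l, k < l → l < N + 2 → (G.Adj (a (σ k)) (a (σ l)) ↔ c.1 = true) := by
    intro k l hkl hl
    rw [← h3 k l hkl hl]
    exact (decide_eq_true_iff).symm
  have hbb : ∀ k l, k < l → l < N + 2 → (G.Adj (b (σ k)) (b (σ l)) ↔ c.2 = true) := by
    intro k l hkl hl
    rw [← h3 k l hkl hl]
    exact (decide_eq_true_iff).symm
  have haa' : ∀ k < N + 2, ∀ l < N + 2, k ≠ l → (G.Adj (a (σ k)) (a (σ l)) ↔ c.1 = true) := by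
    intro k hk l hl hkl
    rcases lt_or_gt_of_ne hkl with h' | h'
    · exact haa k l h' hl
    · rw [SimpleGraph.adj_comm]
      exact haa l k h' hk
  have hbb' : ∀ k < N + 2, ∀ l < N + 2, k ≠ l → (G.Adj (b (σ k)) (b (σ l)) ↔ c.2 = true) := by
    intro k hk l hl hkl
    rcases lt_or_gt_of_ne hkl with h' | h'
    · exact hbb k l h' hl
    · rw [SimpleGraph.adj_comm]
      exact hbb l k h' hk
  have hinj : ∀ k < N + 2, ∀ l < N + 2, k ≠ l → σ k ≠ σ l := by
    intro k hk l hl hkl
    rcases lt_or_gt_of_ne hkl with h' | h'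
    · exact (h1 k l h' hl).ne
    · exact (h1 l k h' hk).ne'
  have hle : ∀ k < N + 2, ∀ l < N + 2, (σ k ≤ σ l ↔ k ≤ l) := by
    intro k hk l hl
    constructor
    · intro h
      by_contra h'
      exact absurd h (Nat.not_le.mpr (h1 l k (by omega) hk))
    · intro h
      rcases Nat.lt_or_ge k l with h' | h'
      · exact (h1 k l h' hl).le
      · rw [le_antisymm h h']
  have hNB' := hNB.mono (show N ≤ N + 2 by omega)
  rcases hab with ⟨hA, hB, hr⟩ | ⟨hA, hB, hr⟩ | ⟨hA, hB, hr⟩
  · replace hr : ∀ i < M, ∀ j < M, (G.Adj (a i) (b j) ↔ i = j) := hr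
    have htp : TP G (N + 2) c.1 c.2 false (fun k => a (σ k)) (fun k => b (σ k)) := by
      refine ⟨fun i hi j hj h => ?_, fun i hi j hj hij h => ?_, fun i hi j hj hij h => ?_, haa', hbb',
        fun i hi j hj => ?_⟩
      · exact Set.disjoint_left.mp hAB (hA _ (h2 i hi)) (h ▸ hB _ (h2 j hj))
      · have h4 : G.Adj (a (σ i)) (b (σ i)) := (hr _ (h2 i hi) _ (h2 i hi)).2 rfl
        have h5 := (hr _ (h2 j hj) _ (h2 i hi)).1 (by
          rw [← show a (σ i) = a (σ j) from h]
          exact h4)
        exact hinj i hi j hj hij h5.symm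
      · have h4 : G.Adj (a (σ i)) (b (σ i)) := (hr _ (h2 i hi) _ (h2 i hi)).2 rfl
        have h5 := (hr _ (h2 i hi) _ (h2 j hj)).1 (by
          rw [← show b (σ i) = b (σ j) from h]
          exact h4)
        exact hinj i hi j hj hij h5
      · show G.Adj (a (σ i)) (b (σ j)) ↔ _
        rw [hr _ (h2 i hi) _ (h2 j hj)]
        constructor
        · intro h4
          refine iff_of_true ?_ rfl
          by_contra h5
          exact hinj i hi j hj h5 h4
        · intro h4
          rw [h4.2 rfl]
    by_cases hc : c.1 = false ∧ c.2 = false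
    · refine ⟨fun k => a (σ k), fun k => b (σ k), fun i hi => hA _ (h2 i (by omega)),
        fun i hi => hB _ (h2 i (by omega)), Or.inl ?_⟩
      rw [hc.1, hc.2] at htp
      exact htp.mono (by omega)
    · exact absurd htp (hNB'.tp _ _ _ (fun h => hc ⟨h.1, h.2.1⟩) _ _)
  · exfalso
    replace hr : ∀ i < M, ∀ j < M, (G.Adj (a i) (b j) ↔ i ≠ j) := hr
    have htp : TP G (N + 2) c.1 c.2 true (fun k => a (σ k)) (fun k => b (σ k)) := by
      refine ⟨fun i hi j hj h => ?_, fun i hi j hj hij h => ?_, fun i hi j hj hij h => ?_, haa', hbb',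
        fun i hi j hj => ?_⟩
      · exact Set.disjoint_left.mp hAB (hA _ (h2 i hi)) (h ▸ hB _ (h2 j hj))
      · have h4 : G.Adj (a (σ j)) (b (σ i)) := (hr _ (h2 j hj) _ (h2 i hi)).2
          (hinj j hj i hi (Ne.symm hij))
        have h5 := (hr _ (h2 i hi) _ (h2 i hi)).1 (by
          rw [show a (σ i) = a (σ j) from h]
          exact h4)
        exact h5 rfl
      · have h4 : G.Adj (a (σ i)) (b (σ j)) := (hr _ (h2 i hi) _ (h2 j hj)).2
          (hinj i hi j hj hij)
        have h5 := (hr _ (h2 i hi) _ (h2 i hi)).1 (by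
          rw [show b (σ i) = b (σ j) from h]
          exact h4)
        exact h5 rfl
      · show G.Adj (a (σ i)) (b (σ j)) ↔ _
        rw [hr _ (h2 i hi) _ (h2 j hj)]
        constructor
        · intro h4
          refine iff_of_false (fun h5 => h4 (by rw [h5])) (by decide)
        · intro h4 h5
          by_cases hij : i = j
          · exact absurd (h4.1 hij) (by decide)
          · exact hinj i hi j hj hij h5
    exact hNB'.tp _ _ _ (fun h => absurd h.2.2 (by decide)) _ _ htp
  · replace hr : ∀ i < M, ∀ j < M, (G.Adj (a i) (b j) ↔ i ≤ j) := hr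
    have hhp : HP G (N + 1) c.1 c.2 (fun k => a (σ (k + 1))) (fun k => b (σ k)) := by
      refine ⟨fun i hi j hj h => ?_, fun i hi j hj hij h => ?_, fun i hi j hj hij h => ?_,
        fun i hi j hj hij => haa' (i + 1) (by omega) (j + 1) (by omega) (by omega),
        fun i hi j hj hij => hbb' i (by omega) j (by omega) hij, fun i hi j hj => ?_⟩
      · exact Set.disjoint_left.mp hAB (hA _ (h2 (i + 1) (by omega))) (h ▸ hB _ (h2 j (by omega)))
      · have key : ∀ k l, k < l → l < N + 2 → a (σ k) ≠ a (σ l) := by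
          intro k l hkl hl h'
          have h4 : G.Adj (a (σ k)) (b (σ k)) := (hr _ (h2 k (by omega)) _ (h2 k (by omega))).2 le_rfl
          rw [h'] at h4
          have h5 := (hr _ (h2 l hl) _ (h2 k (by omega))).1 h4
          rw [hle l hl k (by omega)] at h5
          omega
        rcases lt_or_gt_of_ne hij with h' | h'
        · exact key (i + 1) (j + 1) (by omega) (by omega) h
        · exact key (j + 1) (i + 1) (by omega) (by omega) h.symm
      · have key : ∀ k l, k < l → l < N + 2 → b (σ k) ≠ b (σ l) := by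
          intro k l hkl hl h'
          have h4 : G.Adj (a (σ l)) (b (σ l)) := (hr _ (h2 l hl) _ (h2 l hl)).2 le_rfl
          rw [← h'] at h4
          have h5 := (hr _ (h2 l hl) _ (h2 k (by omega))).1 h4
          rw [hle l hl k (by omega)] at h5
          omega
        rcases lt_or_gt_of_ne hij with h' | h'
        · exact key i j h' (by omega) h
        · exact key j i h' (by omega) h.symm
      · show G.Adj (a (σ (i + 1))) (b (σ j)) ↔ i < j
        rw [hr _ (h2 (i + 1) (by omega)) _ (h2 j (by omega)), hle (i + 1) (by omega) j (by omega)]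
        omega
    by_cases hc : c.1 = true ∧ c.2 = true
    · refine ⟨fun k => a (σ (k + 1)), fun k => b (σ k), fun i hi => hA _ (h2 (i + 1) (by omega)),
        fun i hi => hB _ (h2 i (by omega)), Or.inr ?_⟩
      rw [hc.1, hc.2] at hhp
      exact hhp.mono (by omega)
    · exact absurd hhp ((hNB.mono (show N ≤ N + 1 by omega)).hf _ _ hc _ _)

theorem chF : S_Ch := by
  intro N
  obtain ⟨T, hT⟩ := W.ramC (Bool × Bool) (N + 2)
  refine ⟨T, fun V G hNB q I hq => ?_⟩
  classical
  rintro ⟨w, i, hi, hw⟩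
  obtain ⟨σ, c, h1, h2, h3⟩ := hT fun a b => (decide (G.Adj (w a) (w b)), decide (G.Adj (w b) (q (i a))))
  have hww : ∀ k l, k < l → l < N + 2 → (G.Adj (w (σ k)) (w (σ l)) ↔ c.1 = true) := by
    intro k l hkl hl
    rw [← h3 k l hkl hl]
    exact (decide_eq_true_iff).symm
  have hwq : ∀ k l, k < l → l < N + 2 → (G.Adj (w (σ l)) (q (i (σ k))) ↔ c.2 = true) := by
    intro k l hkl hl
    rw [← h3 k l hkl hl]
    exact (decide_eq_true_iff).symm
  have hww' : ∀ k < N + 2, ∀ l < N + 2, k ≠ l → (G.Adj (w (σ k)) (w (σ l)) ↔ c.1 = true) := by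
    intro k hk l hl hkl
    rcases lt_or_gt_of_ne hkl with h' | h'
    · exact hww k l h' hl
    · rw [SimpleGraph.adj_comm]
      exact hww l k h' hk
  have hlt : ∀ k l, k < l → l < N + 2 → G.Adj (w (σ k)) (q (i (σ l))) := fun k l hkl hl =>
    hw _ _ (h1 k l hkl hl) (h2 l hl)
  have hno : ∀ k < N + 2, ¬ G.Adj (w (σ k)) (q (i (σ k))) := fun k hk => (hi _ (h2 k hk)).2
  have hqq : ∀ k < N + 2, ∀ l < N + 2, ¬ G.Adj (q (i (σ k))) (q (i (σ l))) := fun k hk l hl =>
    hq _ (hi _ (h2 k hk)).1 _ (hi _ (h2 l hl)).1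
  have hdis : ∀ k < N + 1, ∀ l < N + 1, w (σ k) ≠ q (i (σ l)) := by
    intro k hk l hl h
    have h4 := hlt k (N + 1) hk (by omega)
    rw [h] at h4
    exact hqq l (by omega) (N + 1) (by omega) h4
  have hwi : ∀ k < N + 2, ∀ l < N + 2, k ≠ l → w (σ k) ≠ w (σ l) := by
    have key : ∀ k l, k < l → l < N + 2 → w (σ k) ≠ w (σ l) := by
      intro k l hkl hl h
      exact hno l hl (h ▸ hlt k l hkl hl)
    intro k hk l hl hkl
    rcases lt_or_gt_of_ne hkl with h' | h'
    · exact key k l h' hl
    · exact (key l k h' hk).symm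
  have hqi : ∀ k < N + 2, ∀ l < N + 2, k ≠ l → q (i (σ k)) ≠ q (i (σ l)) := by
    have key : ∀ k l, k < l → l < N + 2 → q (i (σ k)) ≠ q (i (σ l)) := by
      intro k l hkl hl h
      exact hno k (by omega) (h ▸ hlt k l hkl hl)
    intro k hk l hl hkl
    rcases lt_or_gt_of_ne hkl with h' | h'
    · exact key k l h' hl
    · exact (key l k h' hk).symm
  by_cases hc : c.2 = true
  · have htp : TP G (N + 1) c.1 false true (fun k => w (σ k)) (fun k => q (i (σ k))) := by
      refine ⟨hdis, fun k hk l hl => hwi k (by omega) l (by omega),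
        fun k hk l hl => hqi k (by omega) l (by omega), fun k hk l hl => hww' k (by omega) l (by omega),
        fun k hk l hl _ => iff_of_false (hqq k (by omega) l (by omega)) (by decide), fun k hk l hl => ?_⟩
      rcases lt_trichotomy k l with h' | h' | h'
      · exact iff_of_true (hlt k l h' (by omega)) (iff_of_false h'.ne (by decide))
      · subst h'
        exact iff_of_false (hno k (by omega)) (fun h => absurd (h.1 rfl) (by decide))
      · exact iff_of_true ((hwq l k h' (by omega)).2 hc) (iff_of_false h'.ne' (by decide))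
    exact (hNB.mono (show N ≤ N + 1 by omega)).tp _ _ _ (fun h => absurd h.2.2 (by decide)) _ _ htp
  · have hhp : HP G (N + 1) c.1 false (fun k => w (σ k)) (fun k => q (i (σ k))) := by
      refine ⟨hdis, fun k hk l hl => hwi k (by omega) l (by omega),
        fun k hk l hl => hqi k (by omega) l (by omega), fun k hk l hl => hww' k (by omega) l (by omega),
        fun k hk l hl _ => iff_of_false (hqq k (by omega) l (by omega)) (by decide), fun k hk l hl => ?_⟩
      rcases lt_trichotomy k l with h' | h' | h'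
      · exact iff_of_true (hlt k l h' (by omega)) h'
      · subst h'
        exact iff_of_false (hno k (by omega)) (lt_irrefl _)
      · exact iff_of_false (fun h => hc ((hwq l k h' (by omega)).1 h)) (by omega)
    exact (hNB.mono (show N ≤ N + 1 by omega)).hf _ _ (fun h => absurd h.2 (by decide)) _ _ hhp

end Pool.Agent.MPd439b2.H3N
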