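import Pool.Agent.Lib.MP_d439b2_co.X3.H3N.Defs
import Pool.Agent.Lib.MP_d439b2_co.HC.EngC
import Pool.Agent.Lib.MP_d439b2_co.H3.M0
import Pool.Agent.Lib.MP_d439b2_co.H3.M1

/-!
# MP_d439b2_co, X3/H3N, VP: patterns of vertices (helper12)
-/

set_option autoImplicit false

namespace Pool.Agent.MPd439b2.H3N

open Pool.Agent.MPd439b2 Pool.Agent.MPd439b2.BU Pool.Agent.MPd439b2.HC

/-- no `K3:0,01,12`, as a pattern -/
theorem fr3 {V : Type} {G : SimpleGraph V} (h : H3T.Fr3 G) : SPF G Set.univ 6 r3 := by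
  intro S hS
  have ht : ∀ i < 6, ∀ j < i, HC.r3 i j = true → Tch G (S i) (S j) :=
    fun i hi j hj hr => (hS.tch i hi j hj).2 hr
  have hn : ∀ i < 6, ∀ j < i, HC.r3 i j = false → ¬ Tch G (S i) (S j) := by
    intro i hi j hj hr ht
    rw [hS.tch i hi j hj, hr] at ht
    exact Bool.noConfusion ht
  have hd := hS.dis
  refine h (H3.pfM0 V G (S 0) (S 1) (S 2) (S 3) (S 4) (S 5) (hS.conn 0 (by omega))
    (hS.conn 1 (by omega)) (hS.conn 2 (by omega)) (hS.conn 3 (by omega)) (hS.conn 4 (by omega))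
    (hS.conn 5 (by omega)) (hd 1 (by omega) 0 (by omega)).symm (hd 2 (by omega) 0 (by omega)).symm
    (hd 2 (by omega) 1 (by omega)).symm (hd 3 (by omega) 0 (by omega)) (hd 3 (by omega) 1 (by omega))
    (hd 3 (by omega) 2 (by omega)) (hd 4 (by omega) 0 (by omega)) (hd 4 (by omega) 1 (by omega))
    (hd 4 (by omega) 2 (by omega)) (hd 5 (by omega) 0 (by omega)) (hd 5 (by omega) 1 (by omega))
    (hd 5 (by omega) 2 (by omega)) (hd 4 (by omega) 3 (by omega)).symm
    (hd 5 (by omega) 3 (by omega)).symm (hd 5 (by omega) 4 (by omega)).symm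
    (ht 1 (by omega) 0 (by omega) (by decide)).symm (ht 2 (by omega) 0 (by omega) (by decide)).symm
    (ht 2 (by omega) 1 (by omega) (by decide)).symm (ht 3 (by omega) 0 (by omega) (by decide))
    (hn 3 (by omega) 1 (by omega) (by decide)) (hn 3 (by omega) 2 (by omega) (by decide))
    (ht 4 (by omega) 0 (by omega) (by decide)) (ht 4 (by omega) 1 (by omega) (by decide))
    (hn 4 (by omega) 2 (by omega) (by decide)) (ht 5 (by omega) 1 (by omega) (by decide))
    (ht 5 (by omega) 2 (by omega) (by decide)) (hn 5 (by omega) 0 (by omega) (by decide))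
    (fun h' => hn 4 (by omega) 3 (by omega) (by decide) h'.symm)
    (fun h' => hn 5 (by omega) 3 (by omega) (by decide) h'.symm)
    (fun h' => hn 5 (by omega) 4 (by omega) (by decide) h'.symm))

/-- `n` different vertices with the codes `ts` -/
structure VP {V : Type} (G : SimpleGraph V) (n : ℕ) (f : ℕ → V) (ts : List ℕ) : Prop where
  len : ts.length = n
  ne : ∀ i < n, ∀ j < i, f i ≠ f j
  adj : ∀ i < n, ∀ j < i, (G.Adj (f i) (f j) ↔ rc ts i j = true)

section

variable {V : Type} {G : SimpleGraph V} {n : ℕ} {f : ℕ → V} {ts : List ℕ}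

theorem VP.sp (h : VP G n f ts) : SP G Set.univ n (fun i => {f i}) (rc ts) :=
  ⟨fun _ _ => Set.subset_univ _, fun _ _ => Conn.singleton G _,
    fun i hi j hj => Set.disjoint_singleton.2 (h.ne i hi j hj),
    fun i hi j hj => tch_single.trans (h.adj i hi j hj)⟩

/-- one more vertex with the given code -/
theorem VP.snocE (h : VP G n f ts) (z : V) (hz : ∀ j < n, z ≠ f j) (t : ℕ)
    (ht : ∀ j < n, (G.Adj z (f j) ↔ t.testBit j = true)) :
    VP G (n + 1) (fun i => if i < n then f i else z) (ts ++ [t]) := by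
  have hl := h.len
  refine ⟨by rw [List.length_append, hl]; rfl, fun i hi j hj => ?_, fun i hi j hj => ?_⟩
  · have h2 : j < n := by omega
    by_cases h1 : i < n
    · simp only [if_pos h1, if_pos h2]
      exact h.ne i h1 j hj
    · simp only [if_neg h1, if_pos h2]
      exact hz j h2
  · have h2 : j < n := by omega
    by_cases h1 : i < n
    · simp only [if_pos h1, if_pos h2, rc]
      rw [List.getD_append _ _ _ _ (by omega)]
      exact h.adj i h1 j hj
    · have h3 : i = n := by omega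
      subst h3
      simp only [if_neg h1, if_pos h2, rc]
      rw [List.getD_append_right _ _ _ _ (by omega), hl, Nat.sub_self]
      exact ht j h2

/-- one more vertex -/
theorem VP.snoc (h : VP G n f ts) (z : V) (hz : ∀ j < n, z ≠ f j) :
    ∃ t < 2 ^ n, (∀ j < n, (G.Adj z (f j) ↔ t.testBit j = true)) ∧
      VP G (n + 1) (fun i => if i < n then f i else z) (ts ++ [t]) := by
  obtain ⟨t, ht⟩ := exists_tr G n (fun i => {f i}) {z}
  have h1 : ∀ j < n, (G.Adj z (f j) ↔ t.testBit j = true) := fun j hj =>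
    tch_single.symm.trans (ht.2 j hj)
  exact ⟨t, ht.1, h1, h.snocE z hz t h1⟩

/-- a certificate -/
theorem VP.kill (h : VP G n f ts) (hG : H3T.Fr3 G) {L : List (List ℕ)}
    (hc : chkG n 6 (rc ts) r3 L = true) : False := fr3 hG _ (chkG_sp h.sp hc)

/-- the model with six vertices `a b c` (triangle), `x ~ a`, `y ~ a, b`, `z ~ b, c` -/
theorem m6 (hG : H3T.Fr3 G) {a b c x y z : V} (ab : G.Adj b a) (ac : G.Adj c a) (bc : G.Adj b c)
    (xa : G.Adj x a) (xb : ¬ G.Adj x b) (xc : ¬ G.Adj x c) (ya : G.Adj y a) (yb : G.Adj y b)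
    (yc : ¬ G.Adj y c) (zb : G.Adj z b) (zc : G.Adj z c) (za : ¬ G.Adj z a) (xy : ¬ G.Adj x y)
    (xz : ¬ G.Adj x z) (yz : ¬ G.Adj y z) : False := by
  have hza : z ≠ a := fun h => xz (h ▸ xa)
  exact hG (H3.pfM1 H3.pfM0 V G a a b c x y z (Or.inl rfl) (Or.inl ab) (Or.inl ac) bc xa.ne xa.ne
    ya.ne ya.ne hza hza (Or.inl xa) xb xc (Or.inl ya) yb yc zb zc za za xy xz yz)

end

end Pool.Agent.MPd439b2.H3N
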